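import Pool.Agent.H19.STAT.Abs
import Pool.Agent.H71.GEN.Ex

/-!
# Systems from families (row N1)

`CDat F`: for all levels `k` values which are functions of the point and of the line in the window
of the level `k`, polynomials of these values, and raw polynomials of the line. `CDat.nd` is the
system. Its axioms `Ok0` hold for the laws conditioned on smaller events.
-/

set_option autoImplicit false

namespace Pool.STAT

open Finset MvPolynomial
open Pool.Agent.H49.Ent Pool.Agent.H32.Dense Pool.STK Pool.KS3 Pool.KA Pool.KSAT Pool.PB Pool.GEN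
open Pool.BFL (Pl CB Pb P2 MC alt)

variable {m J : ℕ}

/-- The coordinates of the sample in the order `e`: the time and the positions. -/
noncomputable def cx (F : Fam m J) (e : ℕ → Fin m) (ω : F.Ω) (i : ℕ) : ℝ :=
  if i = 0 then F.t ω else F.x ω (e i)

/-- **Labels of all levels**: values at the points `pt` and on the lines `li`, polynomials `G` of
the values, and polynomials `R` of the line. -/
structure CDat (F : Fam m J) : Type 1 where
  /-- the values -/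
  V : ℕ → Type
  /-- the value of the level `k` at a point -/
  pt : (k : ℕ) → PtT F → V k
  /-- the value of the level `k` on a line, in the window of the level `k` -/
  li : (k : ℕ) → LnT F → V k
  /-- the polynomials of the values -/
  G : (k : ℕ) → V k → ℕ → PN
  /-- the polynomials of the line in the window of the level `0` -/
  R : LnT F → ℕ → PN

namespace CDat

variable {F : Fam m J}

/-- The system of the sample: the cell of the time, and the label polynomials. -/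
noncomputable def Ph (C : CDat F) (w₀ z k : ℕ) (ω : F.Ω) (i : ℕ) : PN :=
  if i = 0 then MvPolynomial.C ((F.T1 (w₀ + k * z) ω : ℝ) / 2 ^ (w₀ + k * z))
  else C.G k (C.li k (slam F (w₀ + k * z) ω)) i

/-- The precisions: the time has the precision of the window. -/
def g0 (w₀ z : ℕ) (g : ℕ → ℕ → ℕ) (k i : ℕ) : ℕ := if i = 0 then w₀ + k * z else g k i

/-- **The conditions**: labels are exact on `A`; all statements for the levels `≤ M` and the
coordinates `1, …, n`. The bound for the line is given for the level `M` on the natural box. -/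
structure Cnd (C : CDat F) (e : ℕ → Fin m) (n K w₀ z M : ℕ) (g : ℕ → ℕ → ℕ) (C₁ : ℝ)
    (A : F.Ω → Prop) : Prop where
  deg : ∀ k ≤ M, ∀ v, ∀ i, 1 ≤ i → i ≤ n → (C.G k v i).totalDegree ≤ K
  tri : ∀ k ≤ M, ∀ v, ∀ i, 1 ≤ i → i ≤ n → (C.G k v i).vars ⊆ range i
  Rdeg : ∀ l, ∀ i, 1 ≤ i → i ≤ n → (C.R l i).totalDegree ≤ K
  Rtri : ∀ l, ∀ i, 1 ≤ i → i ≤ n → (C.R l i).vars ⊆ range i
  cls : ∀ k ≤ M, ∀ ω, A ω → C.pt k (ptr F J ω) = C.li k (slam F (w₀ + k * z) ω)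
  pos : ∀ k ≤ M, ∀ ω, A ω → ∀ i, 1 ≤ i → i ≤ n →
    |F.x ω (e i) - eval (cx F e ω) (C.Ph w₀ z k ω i)| ≤ 1 / 2 ^ g k i
  line : ∀ ω, A ω → ∀ i, 1 ≤ i → i ≤ n → ∀ b : ℕ → ℝ, Bx (g0 w₀ z g M) (C.Ph w₀ z M ω) i b →
    |eval b (C.R (slam F w₀ ω) i) - eval b (C.Ph w₀ z M ω i)| ≤ Real.exp (C₁ * z) / 2 ^ g M i

/-- **The conditions for abstract positions** `X`, `X ω 0` is the time. -/
structure CndX (C : CDat F) (X : F.Ω → ℕ → ℝ) (n K w₀ z M : ℕ) (g : ℕ → ℕ → ℕ) (C₁ : ℝ)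
    (A : F.Ω → Prop) : Prop where
  X_zero : ∀ ω, X ω 0 = F.t ω
  deg : ∀ k ≤ M, ∀ v, ∀ i, 1 ≤ i → i ≤ n → (C.G k v i).totalDegree ≤ K
  tri : ∀ k ≤ M, ∀ v, ∀ i, 1 ≤ i → i ≤ n → (C.G k v i).vars ⊆ range i
  Rdeg : ∀ l, ∀ i, 1 ≤ i → i ≤ n → (C.R l i).totalDegree ≤ K
  Rtri : ∀ l, ∀ i, 1 ≤ i → i ≤ n → (C.R l i).vars ⊆ range i
  cls : ∀ k ≤ M, ∀ ω, A ω → C.pt k (ptr F J ω) = C.li k (slam F (w₀ + k * z) ω)
  pos : ∀ k ≤ M, ∀ ω, A ω → ∀ i, 1 ≤ i → i ≤ n →
    |X ω i - eval (X ω) (C.Ph w₀ z k ω i)| ≤ 1 / 2 ^ g k i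
  line : ∀ ω, A ω → ∀ i, 1 ≤ i → i ≤ n → ∀ b : ℕ → ℝ, Bx (g0 w₀ z g M) (C.Ph w₀ z M ω) i b →
    |eval b (C.R (slam F w₀ ω) i) - eval b (C.Ph w₀ z M ω i)| ≤ Real.exp (C₁ * z) / 2 ^ g M i

theorem Cnd.toX {C : CDat F} {e : ℕ → Fin m} {n K w₀ z M : ℕ} {g : ℕ → ℕ → ℕ} {C₁ : ℝ}
    {A : F.Ω → Prop} (h : C.Cnd e n K w₀ z M g C₁ A) : C.CndX (cx F e) n K w₀ z M g C₁ A where
  X_zero := fun _ => if_pos rfl
  deg := h.deg
  tri := h.tri
  Rdeg := h.Rdeg
  Rtri := h.Rtri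
  cls := h.cls
  pos := by
    intro k hk ω hω i h1 hi
    have h2 : cx F e ω i = F.x ω (e i) := if_neg (by omega)
    rw [h2]
    exact h.pos k hk ω hω i h1 hi
  line := h.line

/-- The closed variable of level `k`: the values of the levels `≤ k`, and the time to `w₀ + k z`
digits. -/
def lab (C : CDat F) (w₀ z k : ℕ) (ω : F.Ω) : ((k' : ℕ) → Option (C.V k')) × ℕ :=
  (fun k' => if k' ≤ k then some (C.li k' (slam F (w₀ + k' * z) ω)) else none,
    F.T1 (w₀ + k * z) ω)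

open Classical in
/-- **The system of a family**, for abstract positions. -/
noncomputable def ndX (C : CDat F) (X : F.Ω → ℕ → ℝ) (n w₀ z M : ℕ) (g : ℕ → ℕ → ℕ) : NDat where
  Ω := F.Ω
  Λ := LnT F
  Γ := ((k' : ℕ) → Option (C.V k')) × ℕ
  fin := F.fin
  ln := slam F w₀
  T := F.T
  X := X
  c := C.lab w₀ z
  P k x i := if i = 0 then MvPolynomial.C ((x.2 : ℝ) / 2 ^ (w₀ + k * z)) else
    if i ≤ n ∧ k ≤ M then
      match x.1 k with
      | some v => C.G k v i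
      | none => 0
    else 0
  R l i := if 1 ≤ i ∧ i ≤ n then C.R l i else 0
  g k i := if i ≤ n then g0 w₀ z g k i else 0

section

variable (C : CDat F) (X : F.Ω → ℕ → ℝ) (n w₀ z M : ℕ) (g : ℕ → ℕ → ℕ)

theorem ndX_T (ω : F.Ω) : (C.ndX X n w₀ z M g).T ω = F.T ω := rfl

theorem ndX_ln (ω : F.Ω) : (C.ndX X n w₀ z M g).ln ω = slam F w₀ ω := rfl

theorem ndX_c (k : ℕ) (ω : F.Ω) : (C.ndX X n w₀ z M g).c k ω = C.lab w₀ z k ω := rfl

theorem ndX_X (ω : F.Ω) : (C.ndX X n w₀ z M g).X ω = X ω := rfl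

/-- The system of the sample. -/
theorem ndX_P {k i : ℕ} (hk : k ≤ M) (hi : i ≤ n) (ω : F.Ω) :
    (C.ndX X n w₀ z M g).P k ((C.ndX X n w₀ z M g).c k ω) i = C.Ph w₀ z k ω i := by
  change (if i = 0 then MvPolynomial.C (((C.lab w₀ z k ω).2 : ℝ) / 2 ^ (w₀ + k * z)) else
    if i ≤ n ∧ k ≤ M then
      match (C.lab w₀ z k ω).1 k with
      | some v => C.G k v i
      | none => 0
    else 0) = _
  unfold Ph
  by_cases h0 : i = 0
  · rw [if_pos h0, if_pos h0]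
    rfl
  · rw [if_neg h0, if_neg h0, if_pos ⟨hi, hk⟩]
    have h1 : (C.lab w₀ z k ω).1 k = some (C.li k (slam F (w₀ + k * z) ω)) := if_pos le_rfl
    rw [h1]

theorem ndX_R {i : ℕ} (h1 : 1 ≤ i) (hi : i ≤ n) (l : LnT F) :
    (C.ndX X n w₀ z M g).R l i = C.R l i := if_pos ⟨h1, hi⟩

theorem ndX_g {k i : ℕ} (hi : i ≤ n) : (C.ndX X n w₀ z M g).g k i = g0 w₀ z g k i := if_pos hi

/-- Natural boxes. -/
theorem ndX_Bx {k i : ℕ} (hk : k ≤ M) (hi : i ≤ n + 1) (ω : F.Ω) (b : ℕ → ℝ) :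
    Bx ((C.ndX X n w₀ z M g).g k)
      ((C.ndX X n w₀ z M g).P k ((C.ndX X n w₀ z M g).c k ω)) i b ↔
      Bx (g0 w₀ z g k) (C.Ph w₀ z k ω) i b := by
  constructor <;> intro h j hj <;> have h1 := h j hj
  · rw [ndX_P C X n w₀ z M g hk (by omega) ω, ndX_g C X n w₀ z M g (by omega)] at h1
    exact h1
  · rw [ndX_P C X n w₀ z M g hk (by omega) ω, ndX_g C X n w₀ z M g (by omega)]
    exact h1

end

/-- **The system of a family.** -/
noncomputable abbrev nd (C : CDat F) (e : ℕ → Fin m) (n w₀ z M : ℕ) (g : ℕ → ℕ → ℕ) : NDat :=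
  C.ndX (cx F e) n w₀ z M g

section

variable (C : CDat F) (e : ℕ → Fin m) (n w₀ z M : ℕ) (g : ℕ → ℕ → ℕ)

theorem nd_T (ω : F.Ω) : (C.nd e n w₀ z M g).T ω = F.T ω := rfl

theorem nd_ln (ω : F.Ω) : (C.nd e n w₀ z M g).ln ω = slam F w₀ ω := rfl

theorem nd_c (k : ℕ) (ω : F.Ω) : (C.nd e n w₀ z M g).c k ω = C.lab w₀ z k ω := rfl

theorem nd_X0 (ω : F.Ω) : (C.nd e n w₀ z M g).X ω 0 = F.t ω := by
  change cx F e ω 0 = F.t ω
  exact if_pos rfl

theorem nd_X {i : ℕ} (hi : 1 ≤ i) (ω : F.Ω) :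
    (C.nd e n w₀ z M g).X ω i = F.x ω (e i) := by
  change cx F e ω i = _
  exact if_neg (by omega)

/-- The system of the sample. -/
theorem nd_P {k i : ℕ} (hk : k ≤ M) (hi : i ≤ n) (ω : F.Ω) :
    (C.nd e n w₀ z M g).P k ((C.nd e n w₀ z M g).c k ω) i = C.Ph w₀ z k ω i :=
  ndX_P C _ n w₀ z M g hk hi ω

theorem nd_R {i : ℕ} (h1 : 1 ≤ i) (hi : i ≤ n) (l : LnT F) :
    (C.nd e n w₀ z M g).R l i = C.R l i := if_pos ⟨h1, hi⟩

theorem nd_g {k i : ℕ} (hi : i ≤ n) : (C.nd e n w₀ z M g).g k i = g0 w₀ z g k i := if_pos hi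

/-- Natural boxes. -/
theorem nd_Bx {k i : ℕ} (hk : k ≤ M) (hi : i ≤ n + 1) (ω : F.Ω) (b : ℕ → ℝ) :
    Bx ((C.nd e n w₀ z M g).g k)
      ((C.nd e n w₀ z M g).P k ((C.nd e n w₀ z M g).c k ω)) i b ↔
      Bx (g0 w₀ z g k) (C.Ph w₀ z k ω) i b :=
  ndX_Bx C _ n w₀ z M g hk hi ω b

end

/-! ### The closed variables -/

theorem T1_of_slam (F : Fam m J) {w w' : ℕ} (h : w ≤ w') (hw : w' ≤ J) {ω ω' : F.Ω}
    (e : F.T1 w' ω = F.T1 w' ω') : F.T1 w ω = F.T1 w ω' := by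
  have h1 : ∀ ω, F.T1 w ω = F.T1 w' ω / 2 ^ (w' - w) := by
    intro ω
    unfold Fam.T1
    rw [Nat.div_div_eq_div_mul, ← pow_add]
    congr 2
    omega
  rw [h1 ω, h1 ω', e]

/-- `lab` is a function of the line in the window of the level. -/
theorem lab_slam (C : CDat F) {w₀ z k : ℕ} (hk : w₀ + k * z ≤ J) {ω ω' : F.Ω}
    (h : slam F (w₀ + k * z) ω = slam F (w₀ + k * z) ω') :
    C.lab w₀ z k ω = C.lab w₀ z k ω' := by
  have h1 : F.l ω = F.l ω' := congrArg (·.1) h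
  have h2 : F.Z ω = F.Z ω' := congrArg (·.2.1) h
  have h3 : F.T1 (w₀ + k * z) ω = F.T1 (w₀ + k * z) ω' := congrArg (·.2.2) h
  unfold lab
  refine Prod.ext ?_ h3
  funext k'
  by_cases hk' : k' ≤ k
  · simp only [if_pos hk']
    have h4 : w₀ + k' * z ≤ w₀ + k * z := Nat.add_le_add_left (Nat.mul_le_mul_right z hk') w₀
    have h5 : slam F (w₀ + k' * z) ω = slam F (w₀ + k' * z) ω' := by
      unfold slam
      rw [h1, h2, T1_of_slam F h4 hk h3]
    rw [h5]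
  · simp only [if_neg hk']

/-- `lab` as a function of the point. -/
def labp (C : CDat F) (w₀ z k : ℕ) (y : PtT F) : ((k' : ℕ) → Option (C.V k')) × ℕ :=
  (fun k' => if k' ≤ k then some (C.pt k' y) else none, y.2.1 / 2 ^ (J - (w₀ + k * z)))

/-- **Closed**: `lab` is a function of the point, on `A`. -/
theorem CndX.lab_pt {C : CDat F} {X : F.Ω → ℕ → ℝ} {n K w₀ z M : ℕ} {g : ℕ → ℕ → ℕ} {C₁ : ℝ}
    {A : F.Ω → Prop} (h : C.CndX X n K w₀ z M g C₁ A) {k : ℕ} (hk : k ≤ M) {ω : F.Ω}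
    (hω : A ω) : C.lab w₀ z k ω = C.labp w₀ z k (ptr F J ω) := by
  unfold lab labp
  refine Prod.ext ?_ rfl
  funext k'
  by_cases hk' : k' ≤ k
  · simp only [if_pos hk']
    rw [h.cls k' (hk'.trans hk) ω hω]
  · simp only [if_neg hk']

theorem lab_pt {C : CDat F} {e : ℕ → Fin m} {n K w₀ z M : ℕ} {g : ℕ → ℕ → ℕ} {C₁ : ℝ}
    {A : F.Ω → Prop} (h : C.Cnd e n K w₀ z M g C₁ A) {k : ℕ} (hk : k ≤ M) {ω : F.Ω}
    (hω : A ω) : C.lab w₀ z k ω = C.labp w₀ z k (ptr F J ω) :=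
  h.toX.lab_pt hk hω

/-- The value of level `k' ≤ k` is a function of `lab`. -/
theorem lab_val (C : CDat F) {w₀ z k k' : ℕ} (hk : k' ≤ k) {ω ω' : F.Ω}
    (h : C.lab w₀ z k ω = C.lab w₀ z k ω') :
    C.li k' (slam F (w₀ + k' * z) ω) = C.li k' (slam F (w₀ + k' * z) ω') := by
  have h1 := congrFun (congrArg (·.1) h) k'
  simp only [lab, if_pos hk] at h1
  exact Option.some.inj h1

/-- `lab` of a lower level is a function of `lab`. -/
theorem lab_lab (C : CDat F) {w₀ z k k' : ℕ} (hk : k' ≤ k) (hJ : w₀ + k * z ≤ J) {ω ω' : F.Ω}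
    (h : C.lab w₀ z k ω = C.lab w₀ z k ω') : C.lab w₀ z k' ω = C.lab w₀ z k' ω' := by
  have h3 : F.T1 (w₀ + k * z) ω = F.T1 (w₀ + k * z) ω' := congrArg (·.2) h
  unfold lab
  refine Prod.ext ?_ (T1_of_slam F (Nat.add_le_add_left (Nat.mul_le_mul_right z hk) w₀) hJ h3)
  funext a
  by_cases ha : a ≤ k'
  · simp only [if_pos ha]
    rw [lab_val C (ha.trans hk) h]
  · simp only [if_neg ha]

/-! ### The axioms -/

/-- The slopes and the precisions. -/
structure Num (n J w₀ z M : ℕ) (g : ℕ → ℕ → ℕ) (σ : ℕ → ℝ) (C₁ : ℝ) : Prop where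
  top : w₀ + (M + 1) * z ≤ J
  σ_zero : σ 0 = 1
  σ_ge : ∀ i, 1 ≤ σ i
  g_ge : ∀ k ≤ M, ∀ i, 1 ≤ i → i ≤ n → g 0 i ≤ g k i
  hom : ∀ k ≤ M, ∀ i, 1 ≤ i → i ≤ n → |(g k i : ℝ) - g 0 i - σ i * (k * z)| ≤ C₁ * z

/-- **Row N1, abstract positions.** The axioms `Ok0` for the law `q`, from the conditions on the support and the two
entropy bounds. -/
theorem ok0X {C : CDat F} {X : F.Ω → ℕ → ℝ} {n K w₀ z M : ℕ} {g : ℕ → ℕ → ℕ} {σ : ℕ → ℝ}
    {κ C₁ : ℝ} {A : F.Ω → Prop} (hC : C.CndX X n K w₀ z M g C₁ A) (hN : Num n J w₀ z M g σ C₁)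
    (hC₁ : 0 ≤ C₁) {q : F.Ω → ℝ} (hq : IsLaw q) (hA : ∀ ω, 0 < q ω → A ω)
    (time : ((J - w₀ : ℕ) : ℝ) * Real.log 2 - κ * z ≤ CH q F.T (slam F w₀))
    (full : ∀ k ≤ M, n * (z * Real.log 2) - κ * z ≤
      CH q (fun ω (i : Fin n) => ⌊(2 : ℝ) ^ (g0 w₀ z g k i + z) *
        (X ω i - eval (X ω) (C.Ph w₀ z k ω i))⌋) (C.lab w₀ z k)) :
    (C.ndX X n w₀ z M g).Ok0 n K J w₀ z M σ κ C₁ q := by
  have hwk : ∀ k ≤ M, w₀ + k * z ≤ J := fun k hk => by
    have h1 := hN.top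
    have h2 : k * z ≤ (M + 1) * z := Nat.mul_le_mul_right z (by omega)
    omega
  have hrh : ∀ k ≤ M, ∀ i ≤ n, ∀ ω, (C.ndX X n w₀ z M g).rh k ω i =
      X ω i - eval (X ω) (C.Ph w₀ z k ω i) := by
    intro k hk i hi ω
    unfold NDat.rh
    rw [ndX_P C X n w₀ z M g hk hi ω]
    rfl
  refine
    { isLaw := hq
      top := hN.top
      T_lt := F.tim
      X_zero := hC.X_zero
      ln_w := fun ω ω' _ _ h => ?_
      time := time
      c_wn := fun k hk ω ω' _ _ h => ?_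
      c_c := fun k hk ω ω' _ _ h => ?_
      c_T := fun k hk ω ω' _ _ h => ?_
      P_deg := fun k x i => ?_
      P_tri := fun k x i => ?_
      R_deg := fun l i => ?_
      R_tri := fun l i => ?_
      σ_zero := hN.σ_zero
      σ_ge := hN.σ_ge
      g_zero := ?_
      g_ge := fun k hk i => ?_
      hom := fun k hk i hi => ?_
      hgt := fun k hk ω hω i hi => ?_
      line := fun ω hω i h1 hi b hb => ?_
      full := fun k hk => ?_ }
  · exact congrArg (fun s : LnT F => s.2.2) h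
  · have h1 : F.l ω = F.l ω' := congrArg (fun s => s.1.1) h
    have h2 : F.Z ω = F.Z ω' := congrArg (fun s => s.1.2.1) h
    have h3 : F.T ω / 2 ^ (J - (w₀ + k * z)) = F.T ω' / 2 ^ (J - (w₀ + k * z)) :=
      congrArg (fun s => s.2) h
    refine lab_slam C (hwk k hk) ?_
    unfold slam Fam.T1
    rw [h1, h2, h3]
  · exact lab_lab C (Nat.le_succ k) (hwk (k + 1) hk) h
  · exact congrArg (·.2) h
  · change (if i = 0 then MvPolynomial.C ((x.2 : ℝ) / 2 ^ (w₀ + k * z)) else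
      if i ≤ n ∧ k ≤ M then
        match x.1 k with
        | some v => C.G k v i
        | none => 0
      else 0).totalDegree ≤ K
    by_cases h0 : i = 0
    · rw [if_pos h0, totalDegree_C]
      exact Nat.zero_le K
    · rw [if_neg h0]
      by_cases h1 : i ≤ n ∧ k ≤ M
      · rw [if_pos h1]
        cases x.1 k with
        | none => simp only [totalDegree_zero]; exact Nat.zero_le K
        | some v => exact hC.deg k h1.2 v i (by omega) h1.1
      · rw [if_neg h1, totalDegree_zero]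
        exact Nat.zero_le K
  · change (if i = 0 then MvPolynomial.C ((x.2 : ℝ) / 2 ^ (w₀ + k * z)) else
      if i ≤ n ∧ k ≤ M then
        match x.1 k with
        | some v => C.G k v i
        | none => 0
      else 0).vars ⊆ range i
    by_cases h0 : i = 0
    · rw [if_pos h0, vars_C]
      exact empty_subset _
    · rw [if_neg h0]
      by_cases h1 : i ≤ n ∧ k ≤ M
      · rw [if_pos h1]
        cases x.1 k with
        | none => simp only [vars_0]; exact empty_subset _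
        | some v => exact hC.tri k h1.2 v i (by omega) h1.1
      · rw [if_neg h1, vars_0]
        exact empty_subset _
  · change (if 1 ≤ i ∧ i ≤ n then C.R l i else 0).totalDegree ≤ K
    by_cases h1 : 1 ≤ i ∧ i ≤ n
    · rw [if_pos h1]
      exact hC.Rdeg l i h1.1 h1.2
    · rw [if_neg h1, totalDegree_zero]
      exact Nat.zero_le K
  · change (if 1 ≤ i ∧ i ≤ n then C.R l i else 0).vars ⊆ range i
    by_cases h1 : 1 ≤ i ∧ i ≤ n
    · rw [if_pos h1]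
      exact hC.Rtri l i h1.1 h1.2
    · rw [if_neg h1, vars_0]
      exact empty_subset _
  · rw [ndX_g C X n w₀ z M g (Nat.zero_le n)]
    change w₀ + 0 * z = w₀
    omega
  · change (if i ≤ n then g0 w₀ z g 0 i else 0) ≤ (if i ≤ n then g0 w₀ z g k i else 0)
    by_cases h1 : i ≤ n
    · rw [if_pos h1, if_pos h1]
      unfold g0
      by_cases h0 : i = 0
      · rw [if_pos h0, if_pos h0]
        exact Nat.add_le_add_left (Nat.mul_le_mul_right z (Nat.zero_le k)) w₀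
      · rw [if_neg h0, if_neg h0]
        exact hN.g_ge k hk i (by omega) h1
    · rw [if_neg h1, if_neg h1]
  · rw [ndX_g C X n w₀ z M g hi, ndX_g C X n w₀ z M g hi]
    unfold g0
    by_cases h0 : i = 0
    · rw [if_pos h0, if_pos h0, h0, hN.σ_zero]
      have : ((w₀ + k * z : ℕ) : ℝ) - ((w₀ + 0 * z : ℕ) : ℝ) - 1 * (k * z) = 0 := by
        push_cast
        ring
      rw [this, abs_zero]
      positivity
    · rw [if_neg h0, if_neg h0]
      exact hN.hom k hk i (by omega) hi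
  · rw [hrh k hk i hi ω, ndX_g C X n w₀ z M g hi]
    by_cases h0 : i = 0
    · subst h0
      have h1 : g0 w₀ z g k 0 = w₀ + k * z := if_pos rfl
      have h2 : C.Ph w₀ z k ω 0 =
          MvPolynomial.C ((F.T1 (w₀ + k * z) ω : ℝ) / 2 ^ (w₀ + k * z)) := if_pos rfl
      have h3 : X ω 0 = F.t ω := hC.X_zero ω
      rw [h1, h2, eval_C, h3]
      unfold Fam.t Fam.T1
      have hw := hwk k hk
      obtain ⟨s, hs⟩ : ∃ s, J = (w₀ + k * z) + s := ⟨J - (w₀ + k * z), by omega⟩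
      have e1 : J - (w₀ + k * z) = s := by omega
      rw [e1]
      have h4 : (F.T ω : ℝ) / 2 ^ J = (F.T ω : ℝ) / 2 ^ s / 2 ^ (w₀ + k * z) := by
        rw [div_div, ← pow_add]
        congr 2
        omega
      rw [h4, ← sub_div, abs_div, abs_of_pos (by positivity : (0 : ℝ) < 2 ^ (w₀ + k * z))]
      refine div_le_div_of_nonneg_right ?_ (by positivity)
      have h5 : ((F.T ω / 2 ^ s : ℕ) : ℝ) ≤ (F.T ω : ℝ) / 2 ^ s := by
        have := @Nat.cast_div_le ℝ _ _ _ (F.T ω) (2 ^ s)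
        push_cast at this
        exact this
      have h6 : (F.T ω : ℝ) / 2 ^ s < ((F.T ω / 2 ^ s : ℕ) : ℝ) + 1 := by
        rw [div_lt_iff₀ (by positivity)]
        have h7 := Nat.lt_div_mul_add (a := F.T ω) (b := 2 ^ s) (by positivity)
        have h8 : ((F.T ω : ℕ) : ℝ) < ((F.T ω / 2 ^ s * 2 ^ s + 2 ^ s : ℕ) : ℝ) := by
          exact_mod_cast h7
        push_cast at h8
        linarith
      rw [abs_le]
      constructor <;> linarith
    · have h1 : g0 w₀ z g k i = g k i := if_neg h0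
      rw [h1]
      exact hC.pos k hk ω (hA ω hω) i (by omega) hi
  · have h2 : (C.ndX X n w₀ z M g).g M i = g M i := by
      rw [ndX_g C X n w₀ z M g hi]
      exact if_neg (by omega)
    have h3 : (C.ndX X n w₀ z M g).R ((C.ndX X n w₀ z M g).ln ω) i = C.R (slam F w₀ ω) i :=
      ndX_R C X n w₀ z M g h1 hi (slam F w₀ ω)
    have h4 := hC.line ω (hA ω hω) i h1 hi b
      ((ndX_Bx C X n w₀ z M g le_rfl (by omega) ω b).1 hb)
    have h5 := ndX_P C X n w₀ z M g le_rfl hi ω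
    rw [h2, h3, h5]
    exact h4
  · have h1 := full k hk
    have h2 : (fun ω (i : Fin n) => ⌊(2 : ℝ) ^ ((C.ndX X n w₀ z M g).g k i + z) *
        (C.ndX X n w₀ z M g).rh k ω i⌋) = (fun ω (i : Fin n) => ⌊(2 : ℝ) ^ (g0 w₀ z g k i + z) *
        (X ω i - eval (X ω) (C.Ph w₀ z k ω i))⌋) := by
      funext ω i
      rw [hrh k hk i i.2.le ω, ndX_g C X n w₀ z M g i.2.le]
    rw [h2]
    exact h1

/-- **Row N1.** The axioms `Ok0` for the law `q`, from the conditions on the support and the two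
entropy bounds. -/
theorem ok0 {C : CDat F} {e : ℕ → Fin m} {n K w₀ z M : ℕ} {g : ℕ → ℕ → ℕ} {σ : ℕ → ℝ}
    {κ C₁ : ℝ} {A : F.Ω → Prop} (hC : C.Cnd e n K w₀ z M g C₁ A) (hN : Num n J w₀ z M g σ C₁)
    (hC₁ : 0 ≤ C₁) {q : F.Ω → ℝ} (hq : IsLaw q) (hA : ∀ ω, 0 < q ω → A ω)
    (time : ((J - w₀ : ℕ) : ℝ) * Real.log 2 - κ * z ≤ CH q F.T (slam F w₀))
    (full : ∀ k ≤ M, n * (z * Real.log 2) - κ * z ≤
      CH q (fun ω (i : Fin n) => ⌊(2 : ℝ) ^ (g0 w₀ z g k i + z) *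
        (cx F e ω i - eval (cx F e ω) (C.Ph w₀ z k ω i))⌋) (C.lab w₀ z k)) :
    (C.nd e n w₀ z M g).Ok0 n K J w₀ z M σ κ C₁ q :=
  ok0X hC.toX hN hC₁ hq hA time full

/-- The conditions hold on smaller events. -/
theorem Cnd.sub {C : CDat F} {e : ℕ → Fin m} {n K w₀ z M : ℕ} {g : ℕ → ℕ → ℕ}
    {C₁ : ℝ} {A B : F.Ω → Prop} (h : C.Cnd e n K w₀ z M g C₁ A) (hB : ∀ ω, B ω → A ω) :
    C.Cnd e n K w₀ z M g C₁ B :=
  ⟨h.deg, h.tri, h.Rdeg, h.Rtri, fun k hk ω hω => h.cls k hk ω (hB ω hω),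
    fun k hk ω hω => h.pos k hk ω (hB ω hω), fun ω hω => h.line ω (hB ω hω)⟩

theorem CndX.sub {C : CDat F} {X : F.Ω → ℕ → ℝ} {n K w₀ z M : ℕ} {g : ℕ → ℕ → ℕ}
    {C₁ : ℝ} {A B : F.Ω → Prop} (h : C.CndX X n K w₀ z M g C₁ A) (hB : ∀ ω, B ω → A ω) :
    C.CndX X n K w₀ z M g C₁ B :=
  ⟨h.X_zero, h.deg, h.tri, h.Rdeg, h.Rtri, fun k hk ω hω => h.cls k hk ω (hB ω hω),
    fun k hk ω hω => h.pos k hk ω (hB ω hω), fun ω hω => h.line ω (hB ω hω)⟩

end CDat

end Pool.STAT
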