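import Pool.Agent.H64.STAT.Stmts

/-!
# Bounds for the coefficients of polynomials

`PB K R P`: the total degree of `P` is at most `K`, and the coefficients are at most `K R ^ K`.
-/

set_option autoImplicit false

namespace Pool.STAT

open Finset MvPolynomial
open Pool.BFL (Pl CB)

variable {c n M L : ℕ}

theorem cb_mono {P : Pl c} {r r' : ℝ} (h : CB P r) (hr : r ≤ r') : CB P r' := fun k =>
  (h k).trans hr

theorem cb_zero {r : ℝ} (hr : 0 ≤ r) : CB (0 : Pl c) r := fun k => by
  rw [coeff_zero, abs_zero]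
  exact hr

theorem cb_C {a r : ℝ} (h : |a| ≤ r) : CB (C a : Pl c) r := fun k => by
  classical
  rw [coeff_C]
  split_ifs
  · exact h
  · rw [abs_zero]
    exact (abs_nonneg a).trans h

theorem cb_C_mul {P : Pl c} {r : ℝ} (a : ℝ) (h : CB P r) : CB (C a * P) (|a| * r) := fun k => by
  rw [coeff_C_mul, abs_mul]
  exact mul_le_mul_of_nonneg_left (h k) (abs_nonneg a)

theorem cb_neg {P : Pl c} {r : ℝ} (h : CB P r) : CB (-P) r := fun k => by
  rw [coeff_neg, abs_neg]
  exact h k

theorem cb_sub {P P' : Pl c} {r r' : ℝ} (h : CB P r) (h' : CB P' r') : CB (P - P') (r + r') := by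
  rw [sub_eq_add_neg]
  exact cb_add h (cb_neg h')

/-- The number of the monomials. -/
theorem card_support_le {P : Pl c} {D : ℕ} (hP : P.totalDegree ≤ D) :
    P.support.card ≤ (D + 1) ^ c := by
  classical
  have h1 : (Fintype.piFinset fun _ : Fin c => range (D + 1)).card = (D + 1) ^ c := by
    rw [Fintype.card_piFinset]
    simp
  rw [← h1]
  refine Finset.card_le_card_of_injOn (fun e => (e : Fin c → ℕ)) ?_ ?_
  · intro e he
    rw [Finset.mem_coe, Fintype.mem_piFinset]
    intro i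
    rw [Finset.mem_range, Nat.lt_succ_iff]
    have h2 : (e.sum fun _ x => x) ≤ P.totalDegree := le_totalDegree he
    have h3 : e i ≤ e.sum fun _ x => x := by
      by_cases hi : e i = 0
      · rw [hi]
        exact Nat.zero_le _
      · exact Finset.single_le_sum (f := fun i => e i) (fun _ _ => Nat.zero_le _)
          (Finsupp.mem_support_iff.2 hi)
    exact h3.trans (h2.trans hP)
  · intro e _ e' _ h
    exact DFunLike.coe_injective h

theorem cb_mul {P Q : Pl c} {r s : ℝ} {D : ℕ} (hP : P.totalDegree ≤ D) (hr : 0 ≤ r) (hs : 0 ≤ s)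
    (h : CB P r) (h' : CB Q s) : CB (P * Q) ((D + 1 : ℝ) ^ c * (r * s)) := by
  classical
  intro k
  rw [coeff_mul]
  have h1 : ∀ x ∈ HasAntidiagonal.antidiagonal k, coeff x.1 P * coeff x.2 Q ≠ 0 → x.1 ∈ P.support := by
    intro x _ hx
    rw [mem_support_iff]
    intro h0
    exact hx (by rw [h0, zero_mul])
  have h2 : (∑ x ∈ HasAntidiagonal.antidiagonal k, coeff x.1 P * coeff x.2 Q) =
      ∑ x ∈ (HasAntidiagonal.antidiagonal k).filter (fun x => x.1 ∈ P.support),
        coeff x.1 P * coeff x.2 Q := by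
    rw [Finset.sum_filter_of_ne h1]
  have h3 : ((HasAntidiagonal.antidiagonal k).filter (fun x => x.1 ∈ P.support)).card ≤
      P.support.card := by
    refine Finset.card_le_card_of_injOn (fun x => x.1) ?_ ?_
    · intro x hx
      exact (Finset.mem_filter.1 (Finset.mem_coe.1 hx)).2
    · intro x hx y hy hxy
      have hx' := HasAntidiagonal.mem_antidiagonal.1 (Finset.mem_filter.1 (Finset.mem_coe.1 hx)).1
      have hy' := HasAntidiagonal.mem_antidiagonal.1 (Finset.mem_filter.1 (Finset.mem_coe.1 hy)).1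
      have e : x.1 = y.1 := hxy
      refine Prod.ext e ?_
      rw [← hy', e] at hx'
      exact add_left_cancel hx'
  rw [h2]
  refine (Finset.abs_sum_le_sum_abs _ _).trans ((Finset.sum_le_card_nsmul _ _ (r * s)
    fun x _ => ?_).trans ?_)
  · rw [abs_mul]
    exact mul_le_mul (h _) (h' _) (abs_nonneg _) hr
  · rw [nsmul_eq_mul]
    refine mul_le_mul_of_nonneg_right ?_ (mul_nonneg hr hs)
    have := h3.trans (card_support_le hP)
    exact_mod_cast this

/-! ### The class `PB` -/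

/-- The total degree is at most `K`, the coefficients are at most `K R ^ K`. -/
def PB (K : ℕ) (R : ℝ) (P : Pl c) : Prop := P.totalDegree ≤ K ∧ CB P (K * R ^ K)

theorem kr_mono {K K' : ℕ} {R : ℝ} (h : K ≤ K') (hR : 1 ≤ R) :
    (K : ℝ) * R ^ K ≤ K' * R ^ K' := by
  have h1 : (K : ℝ) ≤ K' := by exact_mod_cast h
  have h2 : R ^ K ≤ R ^ K' := pow_le_pow_right₀ hR h
  exact mul_le_mul h1 h2 (by positivity) (by positivity)

theorem kr_nonneg (K : ℕ) {R : ℝ} (hR : 1 ≤ R) : 0 ≤ (K : ℝ) * R ^ K := by positivity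

theorem PB.mono {K K' : ℕ} {R : ℝ} {P : Pl c} (h : PB K R P) (hK : K ≤ K') (hR : 1 ≤ R) :
    PB K' R P := ⟨h.1.trans hK, cb_mono h.2 (kr_mono hK hR)⟩

theorem PB.neg {K : ℕ} {R : ℝ} {P : Pl c} (h : PB K R P) : PB K R (-P) :=
  ⟨by rw [totalDegree_neg]; exact h.1, cb_neg h.2⟩

theorem PB.add {K K' : ℕ} {R : ℝ} {P Q : Pl c} (hR : 1 ≤ R) (h : PB K R P) (h' : PB K' R Q) :
    PB (K + K') R (P + Q) := by
  refine ⟨(totalDegree_add _ _).trans (max_le (h.1.trans (Nat.le_add_right _ _))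
    (h'.1.trans (Nat.le_add_left _ _))), cb_mono (cb_add h.2 h'.2) ?_⟩
  have h1 : R ^ K ≤ R ^ (K + K') := pow_le_pow_right₀ hR (Nat.le_add_right _ _)
  have h2 : R ^ K' ≤ R ^ (K + K') := pow_le_pow_right₀ hR (Nat.le_add_left _ _)
  have h3 : (0 : ℝ) ≤ K := by positivity
  have h4 : (0 : ℝ) ≤ K' := by positivity
  push_cast
  nlinarith [mul_le_mul_of_nonneg_left h1 h3, mul_le_mul_of_nonneg_left h2 h4]

theorem PB.mul {K K' : ℕ} {R : ℝ} {P Q : Pl c} (hR : 1 ≤ R) (h : PB K R P) (h' : PB K' R Q) :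
    PB ((K + 1) ^ c * (K * K') + (K + K')) R (P * Q) := by
  refine ⟨(totalDegree_mul _ _).trans ((add_le_add h.1 h'.1).trans (Nat.le_add_left _ _)),
    cb_mono (cb_mul h.1 (kr_nonneg K hR) (kr_nonneg K' hR) h.2 h'.2) ?_⟩
  have h1 : R ^ (K + K') ≤ R ^ ((K + 1) ^ c * (K * K') + (K + K')) :=
    pow_le_pow_right₀ hR (Nat.le_add_left _ _)
  have h2 : ((K + 1 : ℝ) ^ c * (K * R ^ K * (K' * R ^ K'))) =
      ((K + 1 : ℝ) ^ c * (K * K')) * R ^ (K + K') := by
    rw [pow_add]
    ring
  rw [h2]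
  refine mul_le_mul ?_ h1 (by positivity) (by positivity)
  push_cast
  have : (0 : ℝ) ≤ K + K' := by positivity
  linarith

theorem PB.sum {m K : ℕ} {R : ℝ} (hR : 1 ≤ R) (P : Fin m → Pl c) (h : ∀ i, PB K R (P i)) :
    PB (m * K + K) R (∑ i, P i) := by
  refine ⟨(totalDegree_finsetSum _ _).trans (Finset.sup_le fun i _ =>
    (h i).1.trans (Nat.le_add_left _ _)), cb_mono (cb_sum _ _ _ fun i _ => (h i).2) ?_⟩
  rw [Finset.sum_const, Finset.card_univ, Fintype.card_fin, nsmul_eq_mul]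
  have h1 : R ^ K ≤ R ^ (m * K + K) := pow_le_pow_right₀ hR (Nat.le_add_left _ _)
  rw [← mul_assoc]
  refine mul_le_mul ?_ h1 (by positivity) (by positivity)
  push_cast
  have : (0 : ℝ) ≤ K := by positivity
  linarith

theorem cb_pderiv {P : Pl c} {r : ℝ} {D : ℕ} (hr : 0 ≤ r) (hP : P.totalDegree ≤ D) (h : CB P r)
    (i : Fin c) : CB (pderiv i P) (D * r) := by
  classical
  intro k
  rw [coeff_pderiv, abs_mul]
  obtain ⟨e, he⟩ : ∃ e : Fin c →₀ ℕ, e = k + Finsupp.single i 1 := ⟨_, rfl⟩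
  rw [← he]
  by_cases h0 : coeff e P = 0
  · rw [h0, abs_zero, zero_mul]
    positivity
  · have h1 : e ∈ P.support := mem_support_iff.2 h0
    have h2 : (e.sum fun _ x => x) ≤ P.totalDegree := le_totalDegree h1
    have h5 : e i = k i + 1 := by rw [he]; simp
    have h3 : e i ≤ e.sum fun _ x => x := by
      refine Finset.single_le_sum (f := fun l => e l)
        (fun _ _ => Nat.zero_le _) (Finsupp.mem_support_iff.2 ?_)
      rw [h5]
      omega
    have h4 : (k i : ℝ) + 1 ≤ D := by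
      have h6 : k i + 1 ≤ D := by omega
      exact_mod_cast h6
    have h6 : |((k i : ℝ) + 1)| = (k i : ℝ) + 1 := abs_of_nonneg (by positivity)
    rw [h6, mul_comm]
    exact mul_le_mul h4 (h _) (abs_nonneg _) (by positivity)

theorem totalDegree_pderiv_le' {P : Pl c} {D : ℕ} (hP : P.totalDegree ≤ D) (i : Fin c) :
    (pderiv i P).totalDegree ≤ D := by
  classical
  rw [totalDegree]
  refine Finset.sup_le fun k hk => ?_
  have h1 : coeff k (pderiv i P) ≠ 0 := mem_support_iff.1 hk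
  rw [coeff_pderiv] at h1
  have h2 : (k + Finsupp.single i 1) ∈ P.support := mem_support_iff.2 (left_ne_zero_of_mul h1)
  have h3 : ((k + Finsupp.single i 1).sum fun _ x => x) ≤ P.totalDegree := le_totalDegree h2
  have h4 : ((k + Finsupp.single i 1).sum fun _ x => x) = (k.sum fun _ x => x) + 1 := by
    rw [Finsupp.sum_add_index' (fun _ => rfl) (fun _ _ _ => rfl), Finsupp.sum_single_index rfl]
  omega

theorem PB.pderiv {K : ℕ} {R : ℝ} {P : Pl c} (hR : 1 ≤ R) (h : PB K R P) (i : Fin c) :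
    PB (K * K + K) R (MvPolynomial.pderiv i P) := by
  refine ⟨(totalDegree_pderiv_le' h.1 i).trans (Nat.le_add_left _ _),
    cb_mono (cb_pderiv (kr_nonneg K hR) h.1 h.2 i) ?_⟩
  have h1 : R ^ K ≤ R ^ (K * K + K) := pow_le_pow_right₀ hR (Nat.le_add_left _ _)
  rw [← mul_assoc]
  refine mul_le_mul ?_ h1 (by positivity) (by positivity)
  push_cast
  have : (0 : ℝ) ≤ K := by positivity
  linarith

theorem PB.one {R : ℝ} (hR : 1 ≤ R) : PB 1 R (1 : Pl c) := by
  refine ⟨by rw [totalDegree_one]; exact Nat.zero_le _, ?_⟩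
  have : (1 : Pl c) = C 1 := C_1.symm
  rw [this]
  refine cb_C ?_
  simp only [abs_one, Nat.cast_one, one_mul, pow_one]
  exact hR

/-- Products. -/
theorem pb_prod (c : ℕ) (m K : ℕ) : ∃ K' : ℕ, ∀ R : ℝ, 1 ≤ R → ∀ P : Fin m → Pl c,
    (∀ i, PB K R (P i)) → PB K' R (∏ i, P i) := by
  induction m with
  | zero =>
    refine ⟨1, fun R hR P _ => ?_⟩
    rw [Fin.prod_univ_zero]
    exact PB.one hR
  | succ m ih =>
    obtain ⟨K', h⟩ := ih
    refine ⟨(K + 1) ^ c * (K * K') + (K + K'), fun R hR P hP => ?_⟩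
    rw [Fin.prod_univ_succ]
    exact PB.mul hR (hP 0) (h R hR _ fun i => hP i.succ)

/-- Determinants. -/
theorem pb_det (c : ℕ) (m K : ℕ) : ∃ K' : ℕ, ∀ R : ℝ, 1 ≤ R →
    ∀ A : Matrix (Fin m) (Fin m) (Pl c), (∀ i j, PB K R (A i j)) → PB K' R A.det := by
  classical
  obtain ⟨K₁, h₁⟩ := pb_prod c m K
  refine ⟨(Fintype.card (Equiv.Perm (Fin m))) * K₁ + K₁, fun R hR A hA => ?_⟩
  rw [Matrix.det_apply]
  let e := Fintype.equivFin (Equiv.Perm (Fin m))
  have h2 : (∑ σ : Equiv.Perm (Fin m), Equiv.Perm.sign σ • ∏ i, A (σ i) i) =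
      ∑ l : Fin (Fintype.card (Equiv.Perm (Fin m))),
        Equiv.Perm.sign (e.symm l) • ∏ i, A ((e.symm l) i) i :=
    (Equiv.sum_comp e.symm fun σ => Equiv.Perm.sign σ • ∏ i, A (σ i) i).symm
  rw [h2]
  refine PB.sum hR _ fun l => ?_
  have h3 := h₁ R hR (fun i => A ((e.symm l) i) i) fun i => hA _ _
  rcases Int.units_eq_one_or (Equiv.Perm.sign (e.symm l)) with h | h
  · rw [h, one_smul]
    exact h3
  · rw [h, Units.neg_smul, one_smul]
    exact h3.neg

/-! ### Partial evaluation -/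

/-- The value of the first variables is fixed. -/
noncomputable def part (σ : Fin L → ℝ) (P : Pl (L + M)) : Pl M :=
  aeval (Fin.append (fun l => C (σ l)) (fun a => X a) : Fin (L + M) → Pl M) P

theorem eval_part (σ : Fin L → ℝ) (P : Pl (L + M)) (σ' : Fin M → ℝ) :
    eval σ' (part σ P) = eval (Fin.append σ σ') P := by
  unfold part
  rw [aeval_def, algebraMap_eq, eval_eval₂Hom_C]
where
  eval_eval₂Hom_C : eval σ' (eval₂ C (Fin.append (fun l => C (σ l)) (fun a => X a) :
      Fin (L + M) → Pl M) P) = eval (Fin.append σ σ') P := by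
    rw [eval_eval₂]
    have h1 : (eval σ').comp (C : ℝ →+* Pl M) = RingHom.id ℝ := by
      ext x
      simp
    rw [h1]
    have h2 : (fun t => eval σ' ((Fin.append (fun l => C (σ l)) (fun a => X a) :
        Fin (L + M) → Pl M) t)) = Fin.append σ σ' := by
      funext t
      refine Fin.addCases (fun l => ?_) (fun a => ?_) t
      · rw [Fin.append_left, Fin.append_left, eval_C]
      · rw [Fin.append_right, Fin.append_right, eval_X]
    rw [h2]
    rfl

theorem cb_part {D : ℕ} {r : ℝ} (hr : 0 ≤ r) {σ : Fin L → ℝ} (hσ : ∀ l, |σ l| ≤ 1)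
    {P : Pl (L + M)} (hP : P.totalDegree ≤ D) (h : CB P r) :
    CB (part σ P) ((D + 1 : ℝ) ^ (L + M) * r) := by
  classical
  unfold part
  rw [P.as_sum, map_sum]
  have h1 : ∀ e : Fin (L + M) →₀ ℕ, CB (aeval (Fin.append (fun l => C (σ l)) (fun a => X a) :
      Fin (L + M) → Pl M) (monomial e (coeff e P))) r := by
    intro e
    rw [aeval_monomial, algebraMap_eq]
    have h2 : (e.prod fun i k => (Fin.append (fun l => C (σ l)) (fun a => X a) :
        Fin (L + M) → Pl M) i ^ k) =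
        C (∏ l : Fin L, σ l ^ e (Fin.castAdd M l)) *
          ∏ a : Fin M, X a ^ e (Fin.natAdd L a) := by
      rw [Finsupp.prod_fintype _ _ fun i => pow_zero _, Fin.prod_univ_add, map_prod]
      congr 1
      · exact Finset.prod_congr rfl fun l _ => by rw [Fin.append_left, map_pow]
      · exact Finset.prod_congr rfl fun a _ => by rw [Fin.append_right]
    have h3 : (∏ a : Fin M, (X a : Pl M) ^ e (Fin.natAdd L a)) =
        monomial (Finsupp.equivFunOnFinite.symm fun a => e (Fin.natAdd L a)) 1 := by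
      rw [monomial_eq, C_1, one_mul, Finsupp.prod_fintype _ _ fun i => pow_zero _]
      rfl
    rw [h2, h3, ← mul_assoc, ← C_mul, C_mul_monomial, mul_one]
    intro k
    rw [coeff_monomial]
    split_ifs
    · rw [abs_mul]
      have h4 : |∏ l : Fin L, σ l ^ e (Fin.castAdd M l)| ≤ 1 := by
        rw [Finset.abs_prod]
        refine Finset.prod_le_one (fun l _ => abs_nonneg _) fun l _ => ?_
        rw [abs_pow]
        exact pow_le_one₀ (abs_nonneg _) (hσ l)
      calc |coeff e P| * |∏ l : Fin L, σ l ^ e (Fin.castAdd M l)| ≤ r * 1 :=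
            mul_le_mul (h e) h4 (abs_nonneg _) hr
        _ = r := mul_one r
    · rw [abs_zero]
      exact hr
  refine cb_mono (cb_sum _ _ _ fun e _ => h1 e) ?_
  rw [Finset.sum_const, nsmul_eq_mul]
  refine mul_le_mul_of_nonneg_right ?_ hr
  exact_mod_cast card_support_le hP

end Pool.STAT
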