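import Pool.Agent.H64.STAT.PhiM
import Pool.Agent.H90.STAT.Flw3

/-!
# ASM (B), deterministic part: two labels which fit the same outgoing walk
-/

set_option autoImplicit false

namespace Pool.STAT

open Finset MvPolynomial
open Pool.BFL (Pl CB Pb P2 MC alt)

variable {c N : ℕ}

/-! ### Functions of polynomial growth -/

/-- `f` is nonnegative and has polynomial growth on `[1, ∞)`. -/
def PG (f : ℝ → ℝ) : Prop := ∃ K : ℕ, ∀ R : ℝ, 1 ≤ R → 0 ≤ f R ∧ f R ≤ K * R ^ K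

theorem pg_const {a : ℝ} (ha : 0 ≤ a) : PG fun _ => a := by
  obtain ⟨K, hK⟩ := exists_nat_ge a
  refine ⟨K, fun R hR => ⟨ha, hK.trans ?_⟩⟩
  exact le_mul_of_one_le_right (Nat.cast_nonneg K) (one_le_pow₀ hR)

theorem pg_id : PG fun R => R := ⟨1, fun R hR => ⟨by linarith, by simp⟩⟩

theorem PG.add {f g : ℝ → ℝ} (hf : PG f) (hg : PG g) : PG fun R => f R + g R := by
  obtain ⟨K, hK⟩ := hf
  obtain ⟨K', hK'⟩ := hg
  refine ⟨K + K', fun R hR => ⟨add_nonneg (hK R hR).1 (hK' R hR).1, ?_⟩⟩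
  have h1 : R ^ K ≤ R ^ (K + K') := pow_le_pow_right₀ hR (Nat.le_add_right _ _)
  have h2 : R ^ K' ≤ R ^ (K + K') := pow_le_pow_right₀ hR (Nat.le_add_left _ _)
  calc f R + g R ≤ K * R ^ K + K' * R ^ K' := add_le_add (hK R hR).2 (hK' R hR).2
    _ ≤ K * R ^ (K + K') + K' * R ^ (K + K') :=
        add_le_add (mul_le_mul_of_nonneg_left h1 (Nat.cast_nonneg _))
          (mul_le_mul_of_nonneg_left h2 (Nat.cast_nonneg _))
    _ = ((K + K' : ℕ) : ℝ) * R ^ (K + K') := by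
        push_cast
        ring

theorem PG.mul {f g : ℝ → ℝ} (hf : PG f) (hg : PG g) : PG fun R => f R * g R := by
  obtain ⟨K, hK⟩ := hf
  obtain ⟨K', hK'⟩ := hg
  refine ⟨K * K' + (K + K'), fun R hR => ⟨mul_nonneg (hK R hR).1 (hK' R hR).1, ?_⟩⟩
  have hR0 : (0 : ℝ) < R := by linarith
  have h1 : R ^ (K + K') ≤ R ^ (K * K' + (K + K')) :=
    pow_le_pow_right₀ hR (Nat.le_add_left _ _)
  calc f R * g R ≤ (K * R ^ K) * (K' * R ^ K') :=
        mul_le_mul (hK R hR).2 (hK' R hR).2 (hK' R hR).1 (by positivity)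
    _ = (K * K' : ℝ) * R ^ (K + K') := by
        rw [pow_add]
        ring
    _ ≤ ((K * K' + (K + K') : ℕ) : ℝ) * R ^ (K * K' + (K + K')) := by
        refine mul_le_mul ?_ h1 (by positivity) (by positivity)
        push_cast
        have : (0 : ℝ) ≤ K + K' := by positivity
        linarith

theorem PG.pow {f : ℝ → ℝ} (hf : PG f) (n : ℕ) : PG fun R => f R ^ n := by
  induction n with
  | zero =>
    have h := pg_const (zero_le_one (α := ℝ))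
    simpa using h
  | succ n ih =>
    have h := ih.mul hf
    simpa [pow_succ] using h

/-! ### Values of polynomials -/

theorem abs_prod_pow_le {R : ℝ} {u : Fin c → ℝ} (hu : ∀ i, |u i| ≤ R)
    (k : Fin c → ℕ) (s : Finset (Fin c)) : |∏ i ∈ s, u i ^ k i| ≤ R ^ (∑ i ∈ s, k i) := by
  rw [Finset.abs_prod, ← Finset.prod_pow_eq_pow_sum]
  refine Finset.prod_le_prod (fun i _ => abs_nonneg _) fun i _ => ?_
  rw [abs_pow]
  exact pow_le_pow_left₀ (abs_nonneg _) (hu i) _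

theorem lip_pow' {R δ : ℝ} (hR : 1 ≤ R) {x y : ℝ} (hx : |x| ≤ R) (hy : |y| ≤ R)
    (h : |x - y| ≤ δ) (k : ℕ) : |x ^ k - y ^ k| ≤ k * R ^ k * δ := by
  have hR0 : (0 : ℝ) ≤ R := by linarith
  have hδ : 0 ≤ δ := (abs_nonneg _).trans h
  induction k with
  | zero => simp
  | succ k ih =>
    have e : x ^ (k + 1) - y ^ (k + 1) = x ^ k * (x - y) + (x ^ k - y ^ k) * y := by ring
    rw [e]
    refine (abs_add_le _ _).trans ?_
    rw [abs_mul, abs_mul, abs_pow]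
    have h1 : |x| ^ k * |x - y| ≤ R ^ k * δ :=
      mul_le_mul (pow_le_pow_left₀ (abs_nonneg _) hx k) h (abs_nonneg _) (by positivity)
    have h2 : |x ^ k - y ^ k| * |y| ≤ (k * R ^ k * δ) * R :=
      mul_le_mul ih hy (abs_nonneg _) (by positivity)
    have h3 : R ^ k * δ ≤ R ^ (k + 1) * δ :=
      mul_le_mul_of_nonneg_right (pow_le_pow_right₀ hR (Nat.le_succ k)) hδ
    have h4 : (k * R ^ k * δ) * R = k * R ^ (k + 1) * δ := by ring
    push_cast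
    linarith

theorem lip_prod' {R δ : ℝ} (hR : 1 ≤ R) {u v : Fin c → ℝ} (hu : ∀ i, |u i| ≤ R)
    (hv : ∀ i, |v i| ≤ R) (hδ : 0 ≤ δ) (h : ∀ i, |u i - v i| ≤ δ) (k : Fin c → ℕ)
    (s : Finset (Fin c)) : |∏ i ∈ s, u i ^ k i - ∏ i ∈ s, v i ^ k i| ≤
      (∑ i ∈ s, k i : ℕ) * R ^ (∑ i ∈ s, k i) * δ := by
  classical
  have hR0 : (0 : ℝ) ≤ R := by linarith
  induction s using Finset.induction_on with
  | empty => simp
  | insert a s ha ih =>
    rw [Finset.prod_insert ha, Finset.prod_insert ha, Finset.sum_insert ha]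
    have e : u a ^ k a * ∏ i ∈ s, u i ^ k i - v a ^ k a * ∏ i ∈ s, v i ^ k i =
        (u a ^ k a - v a ^ k a) * ∏ i ∈ s, u i ^ k i +
          v a ^ k a * (∏ i ∈ s, u i ^ k i - ∏ i ∈ s, v i ^ k i) := by ring
    rw [e]
    refine (abs_add_le _ _).trans ?_
    rw [abs_mul, abs_mul, abs_pow]
    have h1 : |u a ^ k a - v a ^ k a| * |∏ i ∈ s, u i ^ k i| ≤
        (k a * R ^ k a * δ) * R ^ (∑ i ∈ s, k i) :=
      mul_le_mul (lip_pow' hR (hu a) (hv a) (h a) _) (abs_prod_pow_le hu k s) (abs_nonneg _)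
        (by positivity)
    have h2 : |v a| ^ k a * |∏ i ∈ s, u i ^ k i - ∏ i ∈ s, v i ^ k i| ≤
        R ^ k a * ((∑ i ∈ s, k i : ℕ) * R ^ (∑ i ∈ s, k i) * δ) :=
      mul_le_mul (pow_le_pow_left₀ (abs_nonneg _) (hv a) _) ih (abs_nonneg _) (by positivity)
    refine (add_le_add h1 h2).trans (le_of_eq ?_)
    rw [pow_add]
    push_cast
    ring

theorem sum_le_td {P : Pl c} {D : ℕ} (hP : P.totalDegree ≤ D) {k : Fin c →₀ ℕ}
    (hk : k ∈ P.support) : ∑ i, k i ≤ D := by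
  have h1 := le_totalDegree hk
  have h2 : (k.sum fun _ e => e) = ∑ i, k i := Finsupp.sum_fintype _ _ fun _ => rfl
  omega

theorem eval_bd {P : Pl c} {D : ℕ} {r R : ℝ} (hR : 1 ≤ R) (hr : 0 ≤ r) (hP : P.totalDegree ≤ D)
    (h : CB P r) {u : Fin c → ℝ} (hu : ∀ i, |u i| ≤ R) :
    |eval u P| ≤ (D + 1 : ℝ) ^ c * (r * R ^ D) := by
  classical
  have hR0 : (0 : ℝ) ≤ R := by linarith
  rw [eval_eq']
  refine (Finset.abs_sum_le_sum_abs _ _).trans ?_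
  have h1 : ∀ k ∈ P.support, |coeff k P * ∏ i, u i ^ k i| ≤ r * R ^ D := fun k hk => by
    rw [abs_mul]
    exact mul_le_mul (h k) ((abs_prod_pow_le hu k univ).trans
      (pow_le_pow_right₀ hR (sum_le_td hP hk))) (abs_nonneg _) hr
  refine (Finset.sum_le_card_nsmul _ _ _ h1).trans ?_
  rw [nsmul_eq_mul]
  refine mul_le_mul_of_nonneg_right ?_ (by positivity)
  exact_mod_cast card_support_le hP

theorem eval_lip {P : Pl c} {D : ℕ} {r R δ : ℝ} (hR : 1 ≤ R) (hr : 0 ≤ r)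
    (hP : P.totalDegree ≤ D) (h : CB P r) {u v : Fin c → ℝ} (hu : ∀ i, |u i| ≤ R)
    (hv : ∀ i, |v i| ≤ R) (hδ : 0 ≤ δ) (huv : ∀ i, |u i - v i| ≤ δ) :
    |eval u P - eval v P| ≤ (D + 1 : ℝ) ^ c * (r * (D * R ^ D * δ)) := by
  classical
  have hR0 : (0 : ℝ) ≤ R := by linarith
  rw [eval_eq', eval_eq', ← Finset.sum_sub_distrib]
  refine (Finset.abs_sum_le_sum_abs _ _).trans ?_
  have h1 : ∀ k ∈ P.support, |coeff k P * ∏ i, u i ^ k i - coeff k P * ∏ i, v i ^ k i| ≤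
      r * (D * R ^ D * δ) := fun k hk => by
    rw [← mul_sub, abs_mul]
    refine mul_le_mul (h k) ((lip_prod' hR hu hv hδ huv k univ).trans ?_) (abs_nonneg _) hr
    have h2 := sum_le_td hP hk
    refine mul_le_mul_of_nonneg_right ?_ hδ
    refine mul_le_mul ?_ (pow_le_pow_right₀ hR h2) (by positivity) (by positivity)
    exact_mod_cast h2
  refine (Finset.sum_le_card_nsmul _ _ _ h1).trans ?_
  rw [nsmul_eq_mul]
  refine mul_le_mul_of_nonneg_right ?_ (by positivity)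
  exact_mod_cast card_support_le hP

/-! ### Degrees -/

theorem weight_eq_sum (d : Fin c → ℕ) (k : Fin c →₀ ℕ) : Finsupp.weight d k = ∑ i, k i * d i := by
  rw [Finsupp.weight_apply]
  exact Finsupp.sum_fintype k (fun i e => e • d i) fun i => zero_smul ℕ (d i)

theorem td_of_wh {d : Fin c → ℕ} (hd : ∀ i, 1 ≤ d i) {P : Pl c} {j : ℕ}
    (h : P.IsWeightedHomogeneous d j) : P.totalDegree ≤ j := by
  rw [totalDegree]
  refine Finset.sup_le fun k hk => ?_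
  have h1 : (k.sum fun _ e => e) = ∑ i, k i := Finsupp.sum_fintype _ _ fun _ => rfl
  have h2 : Finsupp.weight d k = j := h (mem_support_iff.1 hk)
  rw [h1, ← h2, weight_eq_sum]
  refine Finset.sum_le_sum fun i _ => ?_
  exact Nat.le_mul_of_pos_right _ (hd i)

theorem td_bind {d : Fin c → ℕ} {P : Pl c} {j : ℕ} (h : P.IsWeightedHomogeneous d j)
    (f : Fin c → Pl N) (hf : ∀ i, (f i).totalDegree ≤ d i) : (bind₁ f P).totalDegree ≤ j := by
  classical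
  rw [P.as_sum, map_sum]
  refine (totalDegree_finsetSum _ _).trans (Finset.sup_le fun k hk => ?_)
  rw [bind₁_monomial]
  refine (totalDegree_mul _ _).trans ?_
  rw [totalDegree_C, zero_add]
  refine (totalDegree_finsetProd _ _).trans ?_
  have h2 : Finsupp.weight d k = j := h (mem_support_iff.1 hk)
  rw [← h2, weight_eq_sum]
  refine (Finset.sum_le_sum (g := fun i => k i * d i) fun i _ =>
    (totalDegree_pow _ _).trans (Nat.mul_le_mul_left _ (hf i))).trans ?_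
  exact Finset.sum_le_sum_of_subset (Finset.subset_univ _)

theorem bind_hom {d : Fin c → ℕ} {P : Pl c} {j : ℕ} (h : P.IsWeightedHomogeneous d j)
    (f : Fin c → Pl N) (hf : ∀ i, (f i).IsHomogeneous (d i)) : (bind₁ f P).IsHomogeneous j := by
  classical
  rw [P.as_sum, map_sum]
  refine IsHomogeneous.sum _ _ _ fun k hk => ?_
  have h2 : Finsupp.weight d k = j := h (mem_support_iff.1 hk)
  have h3 := bind_monomial d f hf k (coeff k P)
  rwa [h2] at h3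

theorem flow_td {d : Fin c → ℕ} (hd : ∀ i, 1 ≤ d i) {ξ : Fin c → Pl c} (hξ : VF d ξ) (s : ℝ)
    (i : Fin c) : (flow d ξ s i).totalDegree ≤ d i := by
  unfold flow
  refine (totalDegree_finsetSum _ _).trans (Finset.sup_le fun r _ => ?_)
  refine (totalDegree_mul _ _).trans ?_
  rw [totalDegree_C, zero_add]
  have h1 : ((X i : Pl c)).IsWeightedHomogeneous d (d i) := isWeightedHomogeneous_X _ _ _
  exact (td_of_wh hd (iter_hom hd hξ h1 r)).trans (Nat.sub_le _ _)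

theorem hfl_td {d : Fin c → ℕ} (hd : ∀ i, 1 ≤ d i) {ξ : Fin c → Pl c} (hξ : VF d ξ) {j : ℕ}
    {b : Pl c} (hb : b.IsWeightedHomogeneous d (j - 1)) (s : ℝ) :
    (hfl j ξ b s).totalDegree ≤ j := by
  unfold hfl
  refine (totalDegree_finsetSum _ _).trans (Finset.sup_le fun r _ => ?_)
  refine (totalDegree_mul _ _).trans ?_
  rw [totalDegree_C, zero_add]
  exact (td_of_wh hd (iter_hom hd hξ hb r)).trans (by omega)

theorem flow_zero (d : Fin c → ℕ) (ξ : Fin c → Pl c) (i : Fin c) : flow d ξ 0 i = X i := by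
  unfold flow
  rw [Finset.sum_range_succ']
  have h1 : (∑ r ∈ range (d i), C ((0 : ℝ) ^ (r + 1) / ((r + 1).factorial : ℝ)) *
      (lie ξ)^[r + 1] (X i)) = 0 := by
    refine Finset.sum_eq_zero fun r _ => ?_
    rw [zero_pow (Nat.succ_ne_zero r), zero_div, C_0, zero_mul]
  rw [h1, zero_add]
  simp

theorem hfl_zero (j : ℕ) (ξ : Fin c → Pl c) (b : Pl c) : hfl j ξ b 0 = 0 := by
  unfold hfl
  refine Finset.sum_eq_zero fun r _ => ?_
  rw [zero_pow (Nat.succ_ne_zero r), zero_div, C_0, zero_mul]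

/-! ### The first variable is fixed -/

/-- The value of the first variable is fixed. -/
noncomputable def sub0 (s : ℝ) (P : Pl (N + 1)) : Pl N :=
  bind₁ (Fin.cons (C s) (fun a => X a) : Fin (N + 1) → Pl N) P

theorem eval_sub0 (s : ℝ) (P : Pl (N + 1)) (σ : Fin N → ℝ) :
    eval σ (sub0 s P) = eval (Fin.cons s σ : Fin (N + 1) → ℝ) P := by
  unfold sub0
  rw [evb]
  have h1 : (fun i => eval σ ((Fin.cons (C s) (fun a => X a) : Fin (N + 1) → Pl N) i)) =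
      (Fin.cons s σ : Fin (N + 1) → ℝ) := by
    funext t
    refine Fin.cases ?_ (fun a => ?_) t
    · rw [Fin.cons_zero, Fin.cons_zero, eval_C]
    · rw [Fin.cons_succ, Fin.cons_succ, eval_X]
  rw [h1]

theorem cb_sub0 {D : ℕ} {r s : ℝ} (hr : 0 ≤ r) (hs : |s| ≤ 1) {P : Pl (N + 1)}
    (hP : P.totalDegree ≤ D) (h : CB P r) : CB (sub0 s P) ((D + 1 : ℝ) ^ (N + 1) * r) := by
  classical
  unfold sub0
  rw [P.as_sum, map_sum]
  have h1 : ∀ e : Fin (N + 1) →₀ ℕ, CB (bind₁ (Fin.cons (C s) (fun a => X a) :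
      Fin (N + 1) → Pl N) (monomial e (coeff e P))) r := by
    intro e
    rw [bind₁_monomial]
    have h2 : (∏ i ∈ e.support, (Fin.cons (C s) (fun a => X a) :
        Fin (N + 1) → Pl N) i ^ e i) =
        C (s ^ e 0) * ∏ a : Fin N, X a ^ e a.succ := by
      have h0 : (∏ i ∈ e.support, (Fin.cons (C s) (fun a => X a) :
        Fin (N + 1) → Pl N) i ^ e i) = ∏ i, (Fin.cons (C s) (fun a => X a) :
        Fin (N + 1) → Pl N) i ^ e i := by
        refine Finset.prod_subset (Finset.subset_univ _) fun i _ hi => ?_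
        rw [Finsupp.notMem_support_iff.1 hi, pow_zero]
      rw [h0, Fin.prod_univ_succ]
      congr 1
      rw [Fin.cons_zero, map_pow]
    have h3 : (∏ a : Fin N, (X a : Pl N) ^ e a.succ) =
        monomial (Finsupp.equivFunOnFinite.symm fun a : Fin N => e a.succ) 1 := by
      rw [monomial_eq, C_1, one_mul, Finsupp.prod_fintype _ _ fun i => pow_zero _]
      rfl
    rw [h2, h3, ← mul_assoc, ← C_mul, C_mul_monomial, mul_one]
    intro k
    rw [coeff_monomial]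
    split_ifs
    · rw [abs_mul, abs_pow]
      calc |coeff e P| * |s| ^ e 0 ≤ r * 1 :=
            mul_le_mul (h e) (pow_le_one₀ (abs_nonneg _) hs) (by positivity) hr
        _ = r := mul_one r
    · rw [abs_zero]
      exact hr
  refine cb_mono (cb_sum _ _ _ fun e _ => h1 e) ?_
  rw [Finset.sum_const, nsmul_eq_mul]
  refine mul_le_mul_of_nonneg_right ?_ hr
  exact_mod_cast card_support_le hP

/-! ### Two labels -/

/-- Two labels which fit the same outgoing walk are transported into each other by the flow of the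
leg between the blocks. -/
def FitStmt : Prop :=
  ∀ (c j L : ℕ) (d : Fin c → ℕ), (∀ i, 1 ≤ d i) → 1 ≤ j → ∃ K : ℕ, ∀ (R κ δ ε B : ℝ), 1 ≤ R →
    0 < κ → κ ≤ 1 → 0 ≤ δ → 0 ≤ ε → 0 ≤ B →
    ∀ (ξ : Fin (L + 1) → Fin c → Pl c) (b : Fin (L + 1) → Pl c) (σ : Fin (L + 1) → ℝ)
      (Φ Φ' : Pl c), (∀ a, VF d (ξ a)) → (∀ a, (b a).IsWeightedHomogeneous d (j - 1)) →
    (∀ a i, CB (ξ a i) R) → (∀ a, CB (b a) R) → (∀ a, |σ a| ≤ 1) →
    TBig d (fun a : Fin L => ξ a.succ) κ (fun a => σ a.succ) →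
    Φ.IsWeightedHomogeneous d j → Φ'.IsWeightedHomogeneous d j → CB Φ B →
    CB (bind₁ (wT d (L + 1) ξ) Φ - wH d j (L + 1) ξ b) δ →
    CB (bind₁ (wT d L fun a => ξ a.succ) Φ' -
      wH d j L (fun a => ξ a.succ) fun a => b a.succ) δ →
    ∀ (u u' : Fin c → ℝ) (f f' : ℝ), (∀ i, |u i| ≤ R) → (∀ i, |u' i| ≤ R) →
    (∀ i, |u' i - eval u (flow d (ξ 0) (-(σ 0)) i)| ≤ ε) →
    |f' - f + eval u (hfl j (ξ 0) (b 0) (-(σ 0)))| ≤ ε →
    |f' + eval u' Φ' - (f + eval u Φ)| ≤ K * R ^ K * (δ / κ ^ K + (1 + B) * ε)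

theorem fit_of (hF1 : Flw1Stmt) (hF3 : Flw3Stmt) (hF4 : Flw4Stmt) (hF5 : Flw5Stmt)
    (hSub : SubStmt) : FitStmt := by
  intro c j L d hd hj
  obtain ⟨K₄, h4⟩ := hF4 c j d hd hj
  obtain ⟨K₅, h5⟩ := hSub c L j d hd
  -- the constants
  have p1 : PG fun R => ((K₄ : ℝ) + 1) * R ^ (K₄ + 1) :=
    (pg_const (by positivity)).mul (pg_id.pow _)
  have p2 : PG fun R => ((K₄ : ℝ) + 1) * (((K₄ : ℝ) + 1) * R ^ (K₄ + 1)) ^ (K₄ + 1) :=
    (pg_const (by positivity)).mul (p1.pow _)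
  have p3 : PG fun R => (j + 1 : ℝ) ^ c * ((K₅ : ℝ) * R ^ K₅ * ((j + 1 : ℝ) ^ (L + 1) + 1) * R ^ j) :=
    (pg_const (by positivity)).mul (((((pg_const (Nat.cast_nonneg K₅)).mul
      (pg_id.pow _)).mul (pg_const (by positivity)))).mul (pg_id.pow _))
  have p4 : PG fun R => (1 + ((K₄ : ℝ) + 1) * (((K₄ : ℝ) + 1) * R ^ (K₄ + 1)) ^ (K₄ + 1)) +
      (j + 1 : ℝ) ^ c * ((j : ℝ) * (((K₄ : ℝ) + 1) * (((K₄ : ℝ) + 1) * R ^ (K₄ + 1)) ^
        (K₄ + 1)) ^ j * (((K₄ : ℝ) + 1) * (((K₄ : ℝ) + 1) * R ^ (K₄ + 1)) ^ (K₄ + 1))) :=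
    ((pg_const zero_le_one).add p2).add ((pg_const (by positivity)).mul
      (((pg_const (Nat.cast_nonneg j)).mul (p2.pow _)).mul p2))
  obtain ⟨K₆, h6⟩ := p3.add p4
  refine ⟨K₅ + K₆, ?_⟩
  intro R κ δ ε B hR hκ hκ1 hδ hε hB ξ b σ Φ Φ' hξ hb hξR hbR hσ hbig hΦ hΦ' hΦB hfit hfit' u u' f f'
    hu hu' hut hft
  have hR0 : (0 : ℝ) < R := by linarith
  have hξ' : ∀ a : Fin L, VF d (ξ a.succ) := fun a => hξ _
  have hb' : ∀ a : Fin L, (b a.succ).IsWeightedHomogeneous d (j - 1) := fun a => hb _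
  -- the difference of the two labels
  obtain ⟨F, hF⟩ : ∃ F : Pl c, F = bind₁ (flow d (ξ 0) (σ 0)) Φ - hfl j (ξ 0) (b 0) (σ 0) - Φ' :=
    ⟨_, rfl⟩
  obtain ⟨hT, hN⟩ := hF1 c j (L + 1) d ξ b hd hj hξ hb
  have hP : (bind₁ (wT d (L + 1) ξ) Φ - wH d j (L + 1) ξ b).totalDegree ≤ j :=
    ((bind_hom hΦ _ hT).sub hN).totalDegree_le
  have hkey : bind₁ (wT d L fun a => ξ a.succ) F =
      sub0 (σ 0) (bind₁ (wT d (L + 1) ξ) Φ - wH d j (L + 1) ξ b) -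
        (bind₁ (wT d L fun a => ξ a.succ) Φ' -
          wH d j L (fun a => ξ a.succ) fun a => b a.succ) := by
    refine MvPolynomial.funext fun σ' => ?_
    obtain ⟨e1, e2⟩ := hF5 c j L d ξ b (Fin.cons (σ 0) σ')
    have e3 : (fun a : Fin L => (Fin.cons (σ 0) σ' : Fin (L + 1) → ℝ) a.succ) = σ' := by
      funext a
      rw [Fin.cons_succ]
    rw [e3, Fin.cons_zero] at e1 e2
    rw [map_sub, eval_sub0, map_sub, map_sub, evb, evb, evb, e2]
    have e4 : (fun i => eval (Fin.cons (σ 0) σ' : Fin (L + 1) → ℝ) (wT d (L + 1) ξ i)) =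
        fun i => eval (fun k => eval σ' (wT d L (fun a => ξ a.succ) k))
          (flow d (ξ 0) (σ 0) i) := funext fun i => e1 i
    rw [e4, hF, map_sub, map_sub, evb]
    ring
  have hcb : CB (bind₁ (wT d L fun a => ξ a.succ) F) (((j + 1 : ℝ) ^ (L + 1) + 1) * δ) := by
    rw [hkey]
    refine cb_mono (cb_sub (cb_sub0 hδ (hσ 0) hP hfit) hfit') (le_of_eq ?_)
    ring
  have hFd : F.totalDegree ≤ j := by
    rw [hF]
    refine (totalDegree_sub _ _).trans (max_le ((totalDegree_sub _ _).trans (max_le ?_ ?_)) ?_)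
    · exact td_bind hΦ _ fun i => flow_td hd (hξ 0) _ i
    · exact hfl_td hd (hξ 0) (hb 0) _
    · exact td_of_wh hd hΦ'
  have hFB := h5 R κ (((j + 1 : ℝ) ^ (L + 1) + 1) * δ) hR hκ hκ1 (by positivity)
    (fun a => ξ a.succ) (fun a => σ a.succ) F hξ' (fun a i => hξR _ _) (fun a => hσ _) hbig hFd hcb
  have hFe := eval_bd hR (by positivity) hFd hFB hu'
  -- the transport
  obtain ⟨v, hv⟩ : ∃ v : Fin c → ℝ, v = fun i => eval u (flow d (ξ 0) (-(σ 0)) i) := ⟨_, rfl⟩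
  obtain ⟨R₁, hR₁⟩ : ∃ R₁ : ℝ, R₁ = ((K₄ : ℝ) + 1) * R ^ (K₄ + 1) := ⟨_, rfl⟩
  obtain ⟨R₂, hR₂⟩ : ∃ R₂ : ℝ, R₂ = ((K₄ : ℝ) + 1) * R₁ ^ (K₄ + 1) := ⟨_, rfl⟩
  have aux : ∀ x : ℝ, 1 ≤ x → x ≤ ((K₄ : ℝ) + 1) * x ^ (K₄ + 1) ∧
      (K₄ : ℝ) * x ^ K₄ ≤ ((K₄ : ℝ) + 1) * x ^ (K₄ + 1) := by
    intro x hx
    have hx0 : (0 : ℝ) < x := by linarith
    have a1 : (1 : ℝ) ≤ x ^ K₄ := one_le_pow₀ hx
    have a2 : x ^ K₄ ≤ x ^ (K₄ + 1) := pow_le_pow_right₀ hx (Nat.le_succ _)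
    have a3 : x ≤ x ^ (K₄ + 1) := by
      rw [pow_succ]
      exact le_mul_of_one_le_left hx0.le a1
    have a4 : (0 : ℝ) ≤ K₄ := Nat.cast_nonneg _
    refine ⟨a3.trans (le_mul_of_one_le_left (by positivity) (by linarith)), ?_⟩
    exact mul_le_mul (by linarith) a2 (by positivity) (by positivity)
  have hRR₁ : R ≤ R₁ := by
    rw [hR₁]
    exact (aux R hR).1
  have hR₁1 : 1 ≤ R₁ := hR.trans hRR₁
  have hR₁R₂ : R₁ ≤ R₂ := by
    rw [hR₂]
    exact (aux R₁ hR₁1).1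
  have hR₂1 : 1 ≤ R₂ := hR₁1.trans hR₁R₂
  have hvR : ∀ i, |v i| ≤ R₁ := by
    intro i
    rw [hv, hR₁]
    have hs : |(-(σ 0))| ≤ 1 := by
      rw [abs_neg]
      exact hσ 0
    have h7 := (h4 R 0 (-(σ 0)) hR le_rfl hs (ξ 0) (b 0) u u (hξ 0) (hb 0) (hξR 0) (hbR 0) hu hu
      (fun i => by rw [sub_self, abs_zero])).1 i
    exact h7.trans (aux R hR).2
  obtain ⟨g1, g2, g3⟩ := h4 R₁ ε (σ 0) hR₁1 hε (hσ 0) (ξ 0) (b 0) u' v (hξ 0) (hb 0)
    (fun i => cb_mono (hξR 0 i) hRR₁) (cb_mono (hbR 0) hRR₁) (fun i => (hu' i).trans hRR₁) hvR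
    (fun i => by
      rw [hv]
      exact hut i)
  have hgR : (K₄ : ℝ) * R₁ ^ K₄ ≤ R₂ := by
    rw [hR₂]
    exact (aux R₁ hR₁1).2
  obtain ⟨f1, f2⟩ := hF3 c j d (ξ 0) (b 0) (-(σ 0)) (σ 0) u hd hj (hξ 0) (hb 0)
  rw [neg_add_cancel] at f1 f2
  rw [hfl_zero, map_zero] at f2
  rw [← hv] at f1 f2
  have f3 : ∀ i, eval v (flow d (ξ 0) (σ 0) i) = u i := fun i => by
    rw [f1 i, flow_zero, eval_X]
  obtain ⟨a, ha⟩ : ∃ a : Fin c → ℝ, a = fun i => eval u' (flow d (ξ 0) (σ 0) i) := ⟨_, rfl⟩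
  have haR : ∀ i, |a i| ≤ R₂ := fun i => by
    rw [ha]
    exact (g1 i).trans hgR
  have hau : ∀ i, |a i - u i| ≤ R₂ * ε := fun i => by
    rw [ha]
    have := g2 i
    rw [f3 i] at this
    exact this.trans (mul_le_mul_of_nonneg_right hgR hε)
  have hlip := eval_lip hR₂1 hB (td_of_wh hd hΦ) hΦB haR
    (fun i => (hu i).trans (hRR₁.trans hR₁R₂)) (by positivity) hau
  have hg3 : |eval u' (hfl j (ξ 0) (b 0) (σ 0)) - eval v (hfl j (ξ 0) (b 0) (σ 0))| ≤ R₂ * ε :=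
    g3.trans (mul_le_mul_of_nonneg_right hgR hε)
  have hFu : eval u' F = eval a Φ - eval u' (hfl j (ξ 0) (b 0) (σ 0)) - eval u' Φ' := by
    rw [hF, map_sub, map_sub, evb, ha]
  have hsum : f' + eval u' Φ' - (f + eval u Φ) =
      (f' - f + eval u (hfl j (ξ 0) (b 0) (-(σ 0)))) - eval u' F +
      (eval u' (hfl j (ξ 0) (b 0) (σ 0)) - eval v (hfl j (ξ 0) (b 0) (σ 0))) * (-1) +
      (eval a Φ - eval u Φ) := by
    rw [hFu]
    linarith [f2]
  obtain ⟨h60, h61⟩ := h6 R hR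
  obtain ⟨T₁, hT₁⟩ : ∃ T₁ : ℝ, T₁ = (j + 1 : ℝ) ^ c *
    ((K₅ : ℝ) * R ^ K₅ * ((j + 1 : ℝ) ^ (L + 1) + 1) * R ^ j) := ⟨_, rfl⟩
  obtain ⟨T₂, hT₂⟩ : ∃ T₂ : ℝ, T₂ = (1 + R₂) + (j + 1 : ℝ) ^ c * ((j : ℝ) * R₂ ^ j * R₂) :=
    ⟨_, rfl⟩
  have hT : T₁ + T₂ ≤ K₆ * R ^ K₆ := by
    rw [hT₁, hT₂, hR₂, hR₁]
    exact h61
  have hT₁0 : 0 ≤ T₁ := by
    rw [hT₁]
    positivity
  have hR₂0 : (0 : ℝ) ≤ R₂ := by linarith
  have hT₂0 : 0 ≤ T₂ := by
    rw [hT₂]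
    positivity
  have hM : (K₆ : ℝ) * R ^ K₆ ≤ ((K₅ + K₆ : ℕ) : ℝ) * R ^ (K₅ + K₆) :=
    kr_mono (Nat.le_add_left _ _) hR
  obtain ⟨M, hMd⟩ : ∃ M : ℝ, M = ((K₅ + K₆ : ℕ) : ℝ) * R ^ (K₅ + K₆) := ⟨_, rfl⟩
  rw [← hMd] at hM ⊢
  have hM1 : T₁ ≤ M := by linarith
  have hM2 : T₂ ≤ M := by linarith
  have hκK : δ / κ ^ K₅ ≤ δ / κ ^ (K₅ + K₆) :=
    div_le_div_of_nonneg_left hδ (by positivity) (pow_le_pow_of_le_one hκ.le hκ1
      (Nat.le_add_right _ _))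
  have b1 : |eval u' F| ≤ M * (δ / κ ^ (K₅ + K₆)) := by
    refine hFe.trans ?_
    have e1 : (j + 1 : ℝ) ^ c * (K₅ * R ^ K₅ * (((j + 1 : ℝ) ^ (L + 1) + 1) * δ) / κ ^ K₅ *
        R ^ j) = T₁ * (δ / κ ^ K₅) := by
      rw [hT₁]
      ring
    rw [e1]
    exact mul_le_mul hM1 hκK (by positivity) (hM1.trans' hT₁0)
  have b2 : ε + R₂ * ε + (j + 1 : ℝ) ^ c * (B * (j * R₂ ^ j * (R₂ * ε))) ≤ M * ((1 + B) * ε) := by
    have e1 : ε + R₂ * ε + (j + 1 : ℝ) ^ c * (B * (j * R₂ ^ j * (R₂ * ε))) =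
        (1 + R₂) * ε + (j + 1 : ℝ) ^ c * (j * R₂ ^ j * R₂) * (B * ε) := by ring
    rw [e1]
    have c1 : (0 : ℝ) ≤ (j + 1 : ℝ) ^ c * (j * R₂ ^ j * R₂) := by positivity
    have c2 : 0 ≤ B * ε := by positivity
    calc (1 + R₂) * ε + (j + 1 : ℝ) ^ c * (j * R₂ ^ j * R₂) * (B * ε) ≤
        T₂ * ε + T₂ * (B * ε) := by
          refine add_le_add (mul_le_mul_of_nonneg_right ?_ hε) (mul_le_mul_of_nonneg_right ?_ c2)
          · rw [hT₂]
            linarith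
          · rw [hT₂]
            linarith
      _ = T₂ * ((1 + B) * ε) := by ring
      _ ≤ M * ((1 + B) * ε) := mul_le_mul_of_nonneg_right hM2 (by positivity)
  rw [hsum]
  have t1 := abs_add_le ((f' - f + eval u (hfl j (ξ 0) (b 0) (-(σ 0)))) - eval u' F +
      (eval u' (hfl j (ξ 0) (b 0) (σ 0)) - eval v (hfl j (ξ 0) (b 0) (σ 0))) * (-1))
      (eval a Φ - eval u Φ)
  have t2 := abs_add_le ((f' - f + eval u (hfl j (ξ 0) (b 0) (-(σ 0)))) - eval u' F)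
    ((eval u' (hfl j (ξ 0) (b 0) (σ 0)) - eval v (hfl j (ξ 0) (b 0) (σ 0))) * (-1))
  have t3 := abs_sub (f' - f + eval u (hfl j (ξ 0) (b 0) (-(σ 0)))) (eval u' F)
  rw [abs_mul, abs_neg, abs_one, mul_one] at t2
  have t4 : M * (δ / κ ^ (K₅ + K₆) + (1 + B) * ε) =
    M * (δ / κ ^ (K₅ + K₆)) + M * ((1 + B) * ε) := by ring
  rw [t4]
  linarith only [t1, t2, t3, hft, b1, b2, hg3, hlip]

end Pool.STAT
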