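import Pool.Agent.H64.STAT.Stmts

/-!
# The weighted core: rows
-/

set_option autoImplicit false

namespace Pool.STAT

open Finset MvPolynomial
open Pool.Agent.H49.Ent Pool.Agent.H32.Dense Pool.STK Pool.KS3
open Pool.BFL (Pl CB Pb P2 MC alt)

/-- Row FLW1: the end point of a walk is homogeneous in the lengths of the legs. -/
def Flw1Stmt : Prop :=
  ∀ (c j N : ℕ) (d : Fin c → ℕ) (ξ : Fin N → Fin c → Pl c) (b : Fin N → Pl c),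
    (∀ i, 1 ≤ d i) → 1 ≤ j → (∀ a, VF d (ξ a)) → (∀ a, (b a).IsWeightedHomogeneous d (j - 1)) →
    (∀ i, (wT d N ξ i).IsHomogeneous (d i)) ∧ (wH d j N ξ b).IsHomogeneous j

/-- Row FLW2: bounds. -/
def Flw2Stmt : Prop :=
  ∀ (c j N : ℕ) (d : Fin c → ℕ), (∀ i, 1 ≤ d i) → 1 ≤ j → ∃ K : ℕ, ∀ R : ℝ, 1 ≤ R →
    ∀ (ξ : Fin N → Fin c → Pl c) (b : Fin N → Pl c), (∀ a, VF d (ξ a)) →
    (∀ a, (b a).IsWeightedHomogeneous d (j - 1)) → (∀ a i, CB (ξ a i) R) → (∀ a, CB (b a) R) →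
    (∀ i, CB (wT d N ξ i) (K * R ^ K)) ∧ CB (wH d j N ξ b) (K * R ^ K)

/-- Row FLW3: the flow is a one parameter group (values). -/
def Flw3Stmt : Prop :=
  ∀ (c j : ℕ) (d : Fin c → ℕ) (ξ : Fin c → Pl c) (b : Pl c) (s t : ℝ) (u : Fin c → ℝ),
    (∀ i, 1 ≤ d i) → 1 ≤ j → VF d ξ → b.IsWeightedHomogeneous d (j - 1) →
    (∀ i, eval (fun k => eval u (flow d ξ s k)) (flow d ξ t i) = eval u (flow d ξ (s + t) i)) ∧
    eval u (hfl j ξ b (s + t)) =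
      eval u (hfl j ξ b s) + eval (fun k => eval u (flow d ξ s k)) (hfl j ξ b t)

/-- Row FLW4: the flow is Lipschitz on boxes. -/
def Flw4Stmt : Prop :=
  ∀ (c j : ℕ) (d : Fin c → ℕ), (∀ i, 1 ≤ d i) → 1 ≤ j → ∃ K : ℕ, ∀ (R δ s : ℝ), 1 ≤ R →
    0 ≤ δ → |s| ≤ 1 → ∀ (ξ : Fin c → Pl c) (b : Pl c) (u v : Fin c → ℝ), VF d ξ →
    b.IsWeightedHomogeneous d (j - 1) → (∀ i, CB (ξ i) R) → CB b R → (∀ i, |u i| ≤ R) →
    (∀ i, |v i| ≤ R) → (∀ i, |u i - v i| ≤ δ) →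
    (∀ i, |eval u (flow d ξ s i)| ≤ K * R ^ K) ∧
    (∀ i, |eval u (flow d ξ s i) - eval v (flow d ξ s i)| ≤ K * R ^ K * δ) ∧
    |eval u (hfl j ξ b s) - eval v (hfl j ξ b s)| ≤ K * R ^ K * δ

/-- Row FLW5: the walk begins with the flow of its first leg. -/
def Flw5Stmt : Prop :=
  ∀ (c j N : ℕ) (d : Fin c → ℕ) (ξ : Fin (N + 1) → Fin c → Pl c) (b : Fin (N + 1) → Pl c)
    (s : Fin (N + 1) → ℝ),
    (∀ i, eval s (wT d (N + 1) ξ i) = eval (fun k => eval (fun a : Fin N => s a.succ)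
      (wT d N (fun a => ξ a.succ) k)) (flow d (ξ 0) (s 0) i)) ∧
    eval s (wH d j (N + 1) ξ b) = eval (fun a : Fin N => s a.succ)
        (wH d j N (fun a => ξ a.succ) (fun a => b a.succ)) +
      eval (fun k => eval (fun a : Fin N => s a.succ) (wT d N (fun a => ξ a.succ) k))
        (hfl j (ξ 0) (b 0) (s 0))

/-- Row TRW: transport along a walk. `u a` are the adapted coordinates at the vertex `a` of the
end point of the walk, `f a` the height of the sheet of the vertex `a` over the end point. -/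
def TrwStmt : Prop :=
  ∀ (c j N : ℕ) (d : Fin c → ℕ), (∀ i, 1 ≤ d i) → 1 ≤ j → ∃ K : ℕ, ∀ (R δ : ℝ), 1 ≤ R →
    0 ≤ δ → δ ≤ 1 → ∀ (ξ : Fin N → Fin c → Pl c) (b : Fin N → Pl c) (s : Fin N → ℝ)
    (u : ℕ → Fin c → ℝ) (f : ℕ → ℝ) (y : ℝ), (∀ a, VF d (ξ a)) →
    (∀ a, (b a).IsWeightedHomogeneous d (j - 1)) → (∀ a i, CB (ξ a i) R) → (∀ a, CB (b a) R) →
    (∀ a, |s a| ≤ 1) → (∀ a ≤ N, ∀ i, |u a i| ≤ R) →
    (∀ (a : Fin N) (i : Fin c), |u (a + 1) i - eval (u a) (flow d (ξ a) (-s a) i)| ≤ δ) →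
    (∀ a : Fin N, |f (a + 1) - f a + eval (u a) (hfl j (ξ a) (b a) (-s a))| ≤ δ) →
    (∀ i, |u N i| ≤ δ) → |y - f N| ≤ δ →
    (∀ i, |u 0 i - eval s (wT d N ξ i)| ≤ K * R ^ K * δ) ∧
    |y - f 0 - eval s (wH d j N ξ b)| ≤ K * R ^ K * δ

/-- Row SPL: the composition law, for a fixed incoming walk `σ`. -/
def SplStmt : Prop :=
  ∀ (c j L M : ℕ) (d : Fin c → ℕ), (∀ i, 1 ≤ d i) → 1 ≤ j → ∃ K : ℕ, ∀ (R : ℝ), 1 ≤ R →
    ∀ (ξ : Fin L → Fin c → Pl c) (b : Fin L → Pl c) (σ : Fin L → ℝ), (∀ a, VF d (ξ a)) →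
    (∀ a, (b a).IsWeightedHomogeneous d (j - 1)) → (∀ a i, CB (ξ a i) R) → (∀ a, CB (b a) R) →
    (∀ a, |σ a| ≤ 1) →
    ∃ (GT : Fin c → Pl c) (GN : Pl c) (DT : Fin L → Fin c → Pl c) (DN : Fin L → Pl c),
      (∀ i, (GT i).totalDegree ≤ K ∧ CB (GT i) (K * R ^ K)) ∧
      (GN.totalDegree ≤ K ∧ CB GN (K * R ^ K)) ∧
      (∀ l i, (DT l i).totalDegree ≤ K ∧ CB (DT l i) (K * R ^ K)) ∧
      (∀ l, (DN l).totalDegree ≤ K ∧ CB (DN l) (K * R ^ K)) ∧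
      (∀ l i, eval σ (pderiv l (wT d L ξ i)) = eval 0 (DT l i)) ∧
      ∀ (ξ' : Fin M → Fin c → Pl c) (b' : Fin M → Pl c) (σ' : Fin M → ℝ),
        let u : Fin c → ℝ := fun k => eval σ' (wT d M ξ' k)
        let Ξ : Fin (L + M) → Fin c → Pl c := Fin.append ξ ξ'
        let Bb : Fin (L + M) → Pl c := Fin.append b b'
        let ρ : Fin (L + M) → ℝ := Fin.append σ σ'
        (∀ i, eval ρ (wT d (L + M) Ξ i) = eval u (GT i)) ∧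
        eval ρ (wH d j (L + M) Ξ Bb) = eval σ' (wH d j M ξ' b') + eval u GN ∧
        (∀ l i, eval ρ (pderiv (Fin.castAdd M l) (wT d (L + M) Ξ i)) = eval u (DT l i)) ∧
        (∀ l, eval ρ (pderiv (Fin.castAdd M l) (wH d j (L + M) Ξ Bb)) = eval u (DN l)) ∧
        (∀ a i, eval ρ (pderiv (Fin.natAdd L a) (wT d (L + M) Ξ i)) =
          ∑ k, eval u (pderiv k (GT i)) * eval σ' (pderiv a (wT d M ξ' k))) ∧
        ∀ a, eval ρ (pderiv (Fin.natAdd L a) (wH d j (L + M) Ξ Bb)) =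
          eval σ' (pderiv a (wH d j M ξ' b')) +
            ∑ k, eval u (pderiv k GN) * eval σ' (pderiv a (wT d M ξ' k))

/-- Row PHI: the polynomial of an incoming walk (from `algw` and SPL). -/
def PhiStmt : Prop :=
  ∀ (c j L M : ℕ) (d : Fin c → ℕ), (∀ i, 1 ≤ d i) → 1 ≤ j → ∃ K : ℕ, ∀ (R κ : ℝ), 1 ≤ R →
    0 < κ → κ ≤ 1 → ∀ (ξ : Fin L → Fin c → Pl c) (b : Fin L → Pl c) (σ : Fin L → ℝ),
    (∀ a, VF d (ξ a)) → (∀ a, (b a).IsWeightedHomogeneous d (j - 1)) → (∀ a i, CB (ξ a i) R) →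
    (∀ a, CB (b a) R) → (∀ a, |σ a| ≤ 1) → TBig d ξ κ σ →
    ∃ Φ : Pl c, Φ.IsWeightedHomogeneous d j ∧ CB Φ (K * R ^ K / κ) ∧
      ∀ (ξ' : Fin M → Fin c → Pl c) (b' : Fin M → Pl c) (r : ℝ), (∀ a, VF d (ξ' a)) →
        (∀ a, (b' a).IsWeightedHomogeneous d (j - 1)) → 0 ≤ r →
        Flat d j (Fin.append ξ ξ' : Fin (L + M) → Fin c → Pl c)
          (Fin.append b b' : Fin (L + M) → Pl c) r →
        CB (bind₁ (wT d M ξ') Φ - wH d j M ξ' b') (K * R ^ K * r / κ)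

/-- Row SUB: a polynomial which is small on the image of a submersive walk is small. -/
def SubStmt : Prop :=
  ∀ (c N D : ℕ) (d : Fin c → ℕ), (∀ i, 1 ≤ d i) → ∃ K : ℕ, ∀ (R κ δ : ℝ), 1 ≤ R →
    0 < κ → κ ≤ 1 → 0 ≤ δ → ∀ (ξ : Fin N → Fin c → Pl c) (σ : Fin N → ℝ) (F : Pl c),
    (∀ a, VF d (ξ a)) → (∀ a i, CB (ξ a i) R) → (∀ a, |σ a| ≤ 1) → TBig d ξ κ σ →
    F.totalDegree ≤ D → CB (bind₁ (wT d N ξ) F) δ → CB F (K * R ^ K * δ / κ ^ K)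

/-- Row FLS: walks with fewer legs (the first leg, or the last leg, is dropped). -/
def FlsStmt : Prop :=
  ∀ (c j N : ℕ) (d : Fin c → ℕ) (r : ℝ), 0 ≤ r →
    (∀ (ξ : Fin (N + 1) → Fin c → Pl c) (b : Fin (N + 1) → Pl c), Flat d j ξ b r →
      Flat d j (fun a : Fin N => ξ a.succ) (fun a : Fin N => b a.succ) r) ∧
    ∀ (ξ : Fin (N + 1) → Fin c → Pl c) (b : Fin (N + 1) → Pl c), Flat d j ξ b r →
      Flat d j (fun a : Fin N => ξ a.castSucc) (fun a : Fin N => b a.castSucc) r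

/-- Row FIBW: a polynomial map of almost uniform variables with a minor which is not small. -/
def FibStmt : Prop :=
  ∀ (n N D : ℕ) (C₀ : ℝ), 1 ≤ N → 1 ≤ C₀ → ∃ C₁ : ℝ, 1 ≤ C₁ ∧ ∀ (κ : ℝ), 0 < κ → κ ≤ 1 →
    ∃ τ : ℝ, 0 < τ ∧ ∃ U₀ : ℕ, ∀ U m : ℕ, U₀ ≤ U → 2 * U ≤ m → (m : ℝ) ≤ C₀ * U → ∀ (W : Type)
      [Fintype W] (μ : W → ℝ) (s : W → Fin N → ℤ) (A : Fin n → Pl N) (e : Fin n → Fin N)
      (Z : W → Fin n → ℤ) (Gd : W → Prop),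
      IsLaw μ → (∀ w a, |s w a| ≤ 2 ^ m) → N * (m * Real.log 2) - τ * U ≤ H μ s →
      (∀ i, (A i).totalDegree ≤ D) → (∀ i, CB (A i) (Real.exp (τ * U))) →
      ¬ CB (Matrix.det (Matrix.of fun i k => pderiv (e k) (A i))) (Real.exp (-(κ * U))) →
      Pb μ (fun w => ¬ Gd w) ≤ τ →
      (∀ w, Gd w → ∀ i, |(Z w i : ℝ) - 2 ^ U * eval (fun a => (s w a : ℝ) / 2 ^ m) (A i)| ≤
        Real.exp (τ * U)) →
      n * (U * Real.log 2) - C₁ * κ * U ≤ H μ Z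

/-- Row RMG: a polynomial which is not small, at an almost uniform sample. -/
def RmgStmt : Prop :=
  ∀ (N D : ℕ) (C₀ τ' η : ℝ), 1 ≤ N → 1 ≤ C₀ → 0 < τ' → 0 < η → ∃ (κ τ : ℝ), 0 < κ ∧ 0 < τ ∧
    ∃ U₀ : ℕ, ∀ U m : ℕ, U₀ ≤ U → 2 * U ≤ m → (m : ℝ) ≤ C₀ * U → ∀ (W 𝒱 : Type)
      [Fintype W] (q : W → ℝ) (s : W → Fin N → ℤ) (v : W → 𝒱) (P : 𝒱 → Pl N),
      IsLaw q → (∀ w a, |s w a| ≤ 2 ^ m) → N * (m * Real.log 2) - τ * U ≤ CH q s v →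
      (∀ x, (P x).totalDegree ≤ D) → (∀ x, CB (P x) (Real.exp (τ * U))) →
      Pb q (fun w => ¬ CB (P (v w)) (Real.exp (-(κ * U))) ∧
        |eval (fun a => (s w a : ℝ) / 2 ^ m) (P (v w))| < Real.exp (-(τ' * U))) ≤ η

/-- Row MCR: prefixes and shifts of chains. -/
def McrStmt : Prop :=
  ∀ (Ω G B W : Type) [Fintype Ω] [Fintype W] (p : Ω → ℝ) (g : Ω → G) (bk : Ω → B) (M : ℕ)
    (q : W → ℝ) (z : ℕ → W → Ω), IsLaw p → MC p (alt g bk) M q z →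
    (∀ M' ≤ M, MC p (alt g bk) M' q z) ∧
    ∀ k, 2 * k ≤ M → MC p (alt g bk) (M - 2 * k) q (fun i => z (i + 2 * k))

/-- Row POP: the choice of a label for every block. `in` and `out` are independent given the block,
`R` is the relation `the polynomial of in fits out`. The pairs of blocks are `x w`, `x' w`. -/
def PopStmt : Prop :=
  ∀ (η : ℝ), 0 < η → ∃ η' : ℝ, 0 < η' ∧ ∀ (W B I O O' : Type) [Fintype W] (q : W → ℝ)
    (x x' : W → B) (ι ι' : W → I) (o : W → O) (o' : W → O') (R : B → I → O → Prop)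
    (R' : B → I → O' → Prop) (E : W → Prop),
    IsLaw q → CI q ι o x → CI q ι' o' x' →
    (∀ w, E w → R (x w) (ι w) (o w) ∧ R' (x' w) (ι' w) (o' w)) → η ≤ Pb q E →
    ∃ h : B → I, η' ≤ Pb q (fun w => E w ∧ (x w = x' w ∨
      (R (x w) (h (x w)) (o w) ∧ R' (x' w) (h (x' w)) (o' w))))

end Pool.STAT
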