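import Pool.Agent.H64.STAT.AsmB
import Pool.Agent.H31.STAT.Cnt
import Pool.Agent.H31.STAT.Trw
import Pool.Agent.H84.STAT.AsmC
import Pool.Agent.H90.STAT.SplM
import Pool.Agent.H65.STAT.Flw3
import Pool.Agent.H87.STAT.Flw2
import Pool.Agent.H63.STAT.Flw4
import Pool.Agent.H99.STAT.Sub
import Pool.Agent.H75.STAT.Fls
import Pool.Agent.H89.STAT.Fibw
import Pool.Agent.H74.STAT.Rmg
import Pool.Agent.H96.STAT.Mcr
import Pool.Agent.H2.STAT.Pop
import Pool.Agent.H6.STAT.Flw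

/-!
# The weighted core: the theorems
-/

set_option autoImplicit false

namespace Pool.STAT

theorem cnt_of15 (h1 : Flw1Stmt) (h5 : Flw5Stmt) : CntStmt :=
  cnt_of h1 flw2_thm (trw_of flw3_thm flw4_thm h5) fib_thm

theorem lab_of15 (h1 : Flw1Stmt) (h5 : Flw5Stmt) : LabStmt :=
  lab_of (fit_of h1 flw3_thm flw4_thm h5 (sub_of h1 flw2_thm)) (phiM_of h1 splM_thm) fls_thm mcr_thm pop_thm

theorem big_of1 (h1 : Flw1Stmt) : BigStmt := big_thm h1 flw2_thm rmg_thm

/-- **(A) COUNT.** -/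
theorem wcnt_thm : CntStmt := cnt_of15 flw1_thm flw5_thm

/-- **(B) LABEL.** -/
theorem wlab_thm : LabStmt := lab_of15 flw1_thm flw5_thm

/-- **(B) LABEL**, without hypothesis on the times. -/
theorem wlab0_thm : Lab0Stmt :=
  lab0_of (fit_of flw1_thm flw3_thm flw4_thm flw5_thm (sub_of flw1_thm flw2_thm))
    (phiM_of flw1_thm splM_thm) fls_thm mcr_thm pop_thm

/-- **(C) SUBMERSION.** -/
theorem wbig_thm : BigStmt := big_of1 flw1_thm

end Pool.STAT
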