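import Pool.Agent.H19.STAT.Sys
import Pool.Agent.H90.BFL.CnlB
import Pool.Agent.H14.BFL.Rat1
import Pool.Agent.H39.BFL.Prob

/-!
# Row 117 WCB: the data of the weighted core
-/

set_option autoImplicit false

namespace Pool.STAT

open Finset MvPolynomial
open Pool.Agent.H49.Ent Pool.Agent.H32.Dense Pool.STK Pool.KS3
open Pool.BFL (Pl CB Pb P2 MC alt)

namespace Wcb

theorem rd_pos (z k : ℕ) : 0 < rd z k := by
  unfold rd
  positivity

theorem lad_mono {d : ℕ → ℕ} {z : ℕ} {σ : ℕ → ℝ} {C C' : ℝ} (h : C ≤ C') {N n : ℕ}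
    {Φ : ℕ → ℕ → PN} (hL : Lad d z σ C N n Φ) : Lad d z σ C' N n Φ := by
  intro k hk i hi
  refine (hL k hk i hi).trans ?_
  refine mul_le_mul_of_nonneg_right ?_ (Real.rpow_nonneg (rd_pos z k).le _)
  exact Real.exp_le_exp.2 (mul_le_mul_of_nonneg_right h (Nat.cast_nonneg z))

section

variable {D : NDat} {n K J z M : ℕ} {σ : ℕ → ℝ} {κ C₁ : ℝ} {q : D.Ω → ℝ}

theorem vz_le (h : D.Ok n K J z M σ κ C₁ q) {v : ℕ} (hv : v ≤ M) : v * z ≤ J :=
  (Nat.mul_le_mul_right z (hv.trans (Nat.le_succ M))).trans h.top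

theorem T_div (h : D.Ok n K J z M σ κ C₁ q) {v v' : ℕ} (hvv : v ≤ v') (hv : v' ≤ M) (ω : D.Ω) :
    D.T ω / 2 ^ (J - v' * z) / 2 ^ ((v' - v) * z) = D.T ω / 2 ^ (J - v * z) := by
  rw [Nat.div_div_eq_div_mul, ← pow_add]
  congr 2
  have h1 := vz_le h hv
  have h2 : v * z ≤ v' * z := Nat.mul_le_mul_right z hvv
  rw [Nat.sub_mul]
  omega

/-- The labels of the levels `≤ v` are determined by the label of the level `v`. -/
theorem c_cs (h : D.Ok n K J z M σ κ C₁ q) {v : ℕ} (hv : v ≤ M) : Det q (D.c v) (D.cs v) := by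
  intro ω ω' hω hω' e
  have key : ∀ j, j ≤ v → D.c (v - j) ω = D.c (v - j) ω' := by
    intro j
    induction j with
    | zero => intro _; exact e
    | succ j ih =>
      intro hj
      have h1 := h.c_c (v - (j + 1)) (by omega) ω ω' hω hω'
      have e1 : v - (j + 1) + 1 = v - j := by omega
      rw [e1] at h1
      exact h1 (ih (by omega))
  funext kk
  unfold NDat.cs
  have h2 := key (v - min kk v) (by omega)
  have e2 : v - (v - min kk v) = min kk v := by omega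
  rw [e2] at h2
  exact h2

theorem cs_c (v : ℕ) : Det q (D.cs v) (D.c v) := by
  intro ω ω' _ _ e
  have h1 := congrFun e v
  unfold NDat.cs at h1
  rwa [min_self] at h1

theorem cs_cs {v v' : ℕ} (hvv : v ≤ v') : Det q (D.cs v') (D.cs v) := by
  intro ω ω' _ _ e
  funext kk
  have h1 := congrFun e (min kk v)
  unfold NDat.cs at h1 ⊢
  have e1 : min (min kk v) v' = min kk v := by omega
  rwa [e1] at h1

theorem wn_cs (h : D.Ok n K J z M σ κ C₁ q) {v : ℕ} (hv : v ≤ M) :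
    Det q (D.wn J (v * z)) (D.cs v) := by
  intro ω ω' hω hω' e
  exact c_cs h hv ω ω' hω hω' (h.c_wn v hv ω ω' hω hω' e)

theorem tm_close (h : D.Ok n K J z M σ κ C₁ q) {v v' : ℕ} (hvv : v ≤ v') (hv : v' ≤ M)
    (ω ω' : D.Ω) (e : D.wn J (v * z) ω = D.wn J (v * z) ω') :
    |D.tm J z v' ω' - D.tm J z v' ω| ≤ 2 ^ ((v' - v) * z) := by
  unfold NDat.wn at e
  have e1 := (Prod.ext_iff.mp e).2
  simp only at e1
  have a1 := T_div h hvv hv ω
  have a2 := T_div h hvv hv ω'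
  unfold NDat.tm
  obtain ⟨a, ha⟩ : ∃ a, a = D.T ω / 2 ^ (J - v' * z) := ⟨_, rfl⟩
  obtain ⟨b, hb⟩ : ∃ b, b = D.T ω' / 2 ^ (J - v' * z) := ⟨_, rfl⟩
  obtain ⟨m, hm⟩ : ∃ m, m = 2 ^ ((v' - v) * z) := ⟨_, rfl⟩
  rw [← ha, ← hb]
  rw [← ha] at a1
  rw [← hb] at a2
  have hm0 : 0 < m := by
    rw [hm]
    positivity
  have e2 : a / m = b / m := by
    rw [hm, a1, a2, e1]
  have b1 := Nat.div_add_mod a m
  have b2 := Nat.div_add_mod b m
  have b3 := Nat.mod_lt a hm0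
  have b4 := Nat.mod_lt b hm0
  rw [e2] at b1
  have hmz : ((2 : ℤ) ^ ((v' - v) * z)) = (m : ℤ) := by
    rw [hm]
    push_cast
    rfl
  rw [hmz, abs_le]
  constructor <;> omega

theorem time_full (h : D.Ok n K J z M σ κ C₁ q) {v v' : ℕ} (hvv : v ≤ v') (hv : v' ≤ M) :
    (((v' - v) * z : ℕ) : ℝ) * Real.log 2 - κ * z ≤ CH q (D.tm J z v') (D.wn J (v * z)) := by
  have h1 := Pool.BFL.RAT.time_dig h.isLaw D.T D.ln (J := J) (u := v * z) (v := v' * z) h.T_lt
    (Nat.mul_le_mul_right z hvv) (vz_le h hv) h.time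
  have h2 : CH q (fun ω => D.T ω / 2 ^ (J - v' * z) % 2 ^ (v' * z - v * z))
      (fun ω => (D.ln ω, D.T ω / 2 ^ (J - v * z))) ≤ CH q (D.tm J z v') (D.wn J (v * z)) := by
    have h3 : CH q (D.tm J z v') (D.wn J (v * z)) = CH q (D.tm J z v')
        (fun ω => (D.ln ω, D.T ω / 2 ^ (J - v * z))) := rfl
    rw [h3]
    refine CH_mono_left h.isLaw.nonneg ?_
    intro ω ω' _ _ e
    have e1 := (Prod.ext_iff.mp e).1
    unfold NDat.tm at e1
    simp only at e1 ⊢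
    have e2 : D.T ω / 2 ^ (J - v' * z) = D.T ω' / 2 ^ (J - v' * z) := by exact_mod_cast e1
    rw [e2]
  refine le_trans (le_of_eq ?_) (h1.trans h2)
  have h3 : (((v' - v) * z : ℕ) : ℝ) = ((v' * z : ℕ) : ℝ) - ((v * z : ℕ) : ℝ) := by
    rw [Nat.sub_mul, Nat.cast_sub (Nat.mul_le_mul_right z hvv)]
  rw [h3]

theorem pT_le (h : D.Ok n K J z M σ κ C₁ q) {v : ℕ} (hv : v ≤ M) (ω : D.Ω) (hω : 0 < q ω)
    (i : Fin n) : |D.pT v ω i| ≤ 2 := by
  have h1 := h.hgt v hv ω hω i (by have := i.2; omega)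
  unfold NDat.pT
  have h2 : (0 : ℝ) < 2 ^ D.g v i := by positivity
  rw [abs_mul, abs_of_pos h2]
  rw [le_div_iff₀ h2] at h1
  linarith [mul_comm (|D.rh v ω i|) ((2 : ℝ) ^ D.g v i)]

end

theorem vfT_vf (d : ℕ → ℕ) (n : ℕ) (S : ℝ) (f : ℕ → PN) :
    VF (fun i : Fin n => d i) (vfT d n S f) := by
  classical
  intro i
  unfold vfT
  split_ifs with h
  · exact (h i).1
  · exact isWeightedHomogeneous_zero _ _ _

theorem vfT_cb (d : ℕ → ℕ) (n : ℕ) {S : ℝ} (hS : 0 ≤ S) (f : ℕ → PN) (i : Fin n) :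
    CB (vfT d n S f i) S := by
  classical
  unfold vfT
  split_ifs with h
  · exact (h i).2
  · intro k
    rw [Pi.zero_apply, coeff_zero, abs_zero]
    exact hS

theorem vfN_hom (d : ℕ → ℕ) (n : ℕ) (S : ℝ) (f : ℕ → PN) :
    (vfN d n S f).IsWeightedHomogeneous (fun i : Fin n => d i) (d n - 1) := by
  classical
  unfold vfN
  split_ifs with h
  · exact h.1
  · exact isWeightedHomogeneous_zero _ _ _

theorem vfN_cb (d : ℕ → ℕ) (n : ℕ) {S : ℝ} (hS : 0 ≤ S) (f : ℕ → PN) :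
    CB (vfN d n S f) S := by
  classical
  unfold vfN
  split_ifs with h
  · exact h.2
  · intro k
    rw [coeff_zero, abs_zero]
    exact hS

end Wcb

open Wcb

/-- **Row WCB.** -/
theorem wcb_of (hJ : JbwStmt) (hT : JtwStmt) (hN : NatStmt) (hC : CptStmt) (hP : TrpStmt) :
    WcbStmt := by
  classical
  intro n K d C₁ hn hd0 hd hC₁
  have hSlp : Slp d (fun i => (d i : ℝ)) n :=
    ⟨hd0, hd, fun _ _ => rfl, le_rfl, by simp⟩
  obtain ⟨CJ, hCJ1, hJ⟩ := hJ n K d (fun i => (d i : ℝ)) C₁ hn hSlp hC₁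
  obtain ⟨C5, hC51, hT⟩ := hT n K d (fun i => (d i : ℝ)) C₁ hn hSlp hC₁
  obtain ⟨CP, hCP1, hP⟩ := hP n K d C₁ C5 hd0 hd hC₁ hC51
  refine ⟨max CJ CP, hCJ1.trans (le_max_left _ _), fun C₂ hC₂ => ?_⟩
  have hC₂J : CJ ≤ C₂ := (le_max_left _ _).trans hC₂
  have hC₂1 : 1 ≤ C₂ := hCJ1.trans hC₂J
  obtain ⟨CT, hCT1, hP⟩ := hP C₂ ((le_max_right _ _).trans hC₂)
  obtain ⟨CN, hCN1, hN⟩ := hN n K d C₁ C₂ hn hd0 hd hC₁ hC₂1
  obtain ⟨CC, hCC1, hC⟩ := hC n K d C₁ C₂ hd0 hd hC₁ hC₂1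
  obtain ⟨C₃, hC₃⟩ : ∃ C₃ : ℝ, C₃ = max (max CT CN) (max CC (C₂ + 1)) := ⟨_, rfl⟩
  have h3T : CT ≤ C₃ := by
    rw [hC₃]
    exact (le_max_left _ _).trans (le_max_left _ _)
  have h3N : CN ≤ C₃ := by
    rw [hC₃]
    exact (le_max_right _ _).trans (le_max_left _ _)
  have h3C : CC ≤ C₃ := by
    rw [hC₃]
    exact (le_max_left _ _).trans (le_max_right _ _)
  have h32 : C₂ + 1 ≤ C₃ := by
    rw [hC₃]
    exact (le_max_right _ _).trans (le_max_right _ _)
  have h31 : 1 ≤ C₃ := by linarith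
  refine ⟨C₃, h31, fun U M η hU hη => ?_⟩
  obtain ⟨κJ, hκJ, zJ, hJ⟩ := hJ M (η / 4) (by positivity)
  obtain ⟨κT, hκT, zT, hT⟩ := hT M (η / 4) (by positivity)
  obtain ⟨zP, hP⟩ := hP U M hU
  obtain ⟨zN, hN⟩ := hN U M
  obtain ⟨zC, hC⟩ := hC U M
  refine ⟨min (min κJ κT) 1, by positivity, max (max zJ zT) (max zP (max zN zC)), ?_⟩
  intro J z k κ D q 𝒱 V f hz hκ hOk hk hf hV
  have hzJ : zJ ≤ z := (le_max_left _ _).trans ((le_max_left _ _).trans hz)
  have hzT : zT ≤ z := (le_max_right _ _).trans ((le_max_left _ _).trans hz)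
  have hzP : zP ≤ z := (le_max_left _ _).trans ((le_max_right _ _).trans hz)
  have hzN : zN ≤ z := (le_max_left _ _).trans ((le_max_right _ _).trans
    ((le_max_right _ _).trans hz))
  have hzC : zC ≤ z := (le_max_right _ _).trans ((le_max_right _ _).trans
    ((le_max_right _ _).trans hz))
  have hκJ' : κ ≤ κJ := hκ.trans ((min_le_left _ _).trans (min_le_left _ _))
  have hκT' : κ ≤ κT := hκ.trans ((min_le_left _ _).trans (min_le_right _ _))
  have hκ1 : κ ≤ 1 := hκ.trans (min_le_right _ _)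
  have hz0 : (0 : ℝ) ≤ z := Nat.cast_nonneg z
  have hq := hOk.isLaw
  have hq0 := hq.nonneg
  have hexp : ∀ c : ℝ, c ≤ C₃ → Real.exp (c * z) ≤ Real.exp (C₃ * z) := fun c hc =>
    Real.exp_le_exp.2 (mul_le_mul_of_nonneg_right hc hz0)
  have hexpU : ∀ c : ℝ, c ≤ C₃ → Real.exp (c * z) / 2 ^ (U * z) ≤
      Real.exp (C₃ * z) / 2 ^ (U * z) := fun c hc =>
    div_le_div_of_nonneg_right (hexp c hc) (by positivity)
  have hvM : k + U ≤ M := by omega
  have hvv : k + U ≤ k + 3 * U := by omega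
  have hsub : (k + 3 * U - (k + U)) * z = 2 * U * z := by
    congr 1
    omega
  -- typical samples
  have hPJ : Pb q (fun ω => ¬ D.JG d z (fun i => (d i : ℝ)) C₂ M n ω) ≤ η / 4 := by
    refine (Pool.Agent.H39.BFL.Pb_mono hq0 ?_).trans (hJ J z κ D q hzJ hκJ' hOk)
    intro ω _ h1 h2
    exact h1 (lad_mono hC₂J h2)
  have hPT := hT J z κ D q hzT hκT' hOk
  have hcpt := fun ω hω hG => hC J z k κ D q hzC hOk hk ω hω hG
  have hδ0 : ∀ (y y' : Fin n → ℝ) (δ : ℝ), (∀ i, |y i - y' i| ≤ δ) → 0 ≤ δ := fun y y' δ h =>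
    (abs_nonneg _).trans (h ⟨0, hn⟩)
  refine ⟨?_, ?_⟩
  · refine (Pool.Agent.H39.BFL.Pb_mono hq0 ?_).trans (hPJ.trans (by linarith))
    intro ω hω h1 h2
    exact h1 (hcpt ω hω h2).1
  · refine
    { isLaw := hq
      d_pos := fun i => hd i
      j_pos := hd n
      m_ge := le_of_eq (by ring)
      bk_β := cs_cs hvv
      g_β := wn_cs hOk hvM
      bk_tm := ?_
      tm_g := ?_
      pT_le := fun ω hω i => pT_le hOk hvM ω hω i
      ξT_vf := fun v _ => vfT_vf d n _ _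
      ξT_le := fun v _ i l => (vfT_cb d n (Real.exp_pos _).le (f v) i l).trans (hexp _ h32)
      ξN_hom := fun v _ => vfN_hom d n _ _
      ξN_le := fun v _ l => (vfN_cb d n (Real.exp_pos _).le (f v) l).trans (hexp _ h32)
      ΘT_le := fun x y hy i => ((hN z k D x hzN hk y y hy hy).1 i).trans (hexp _ h3N)
      ΘT_lip := fun x y y' hy hy' δ h i =>
        (((hN z k D x hzN hk y y' hy hy').2 δ).1 h).1 i |>.trans
          (mul_le_mul_of_nonneg_right (hexp _ h3N) (hδ0 y y' δ h))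
      ΘT_inv := fun x y y' hy hy' δ h i =>
        (((hN z k D x hzN hk y y' hy hy').2 δ).2 h i).trans
          (mul_le_mul_of_nonneg_right (hexp _ h3N) ((abs_nonneg _).trans (h i)))
      FN_lip := fun x y y' hy hy' δ h =>
        (((hN z k D x hzN hk y y' hy hy').2 δ).1 h).2.trans
          (mul_le_mul_of_nonneg_right (hexp _ h3N) (hδ0 y y' δ h))
      own := ?_
      transport := ?_
      timeFull := ?_
      indep := ?_ }
    · intro ω ω' hω hω' e
      have h1 := hOk.c_T (k + 3 * U) hk ω ω' hω hω' (cs_c (q := q) _ ω ω' hω hω' e)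
      unfold NDat.tm
      exact_mod_cast h1
    · intro ω ω' e
      have h1 := tm_close hOk hvv hk ω ω' e
      rw [hsub] at h1
      exact h1
    · refine (Pool.Agent.H39.BFL.Pb_mono hq0 ?_).trans (hPJ.trans (by linarith))
      intro ω hω h1 h2
      obtain ⟨-, ⟨h3, h4⟩, -⟩ := hcpt ω hω h2
      exact h1 ⟨fun i => (h3 i).trans (hexpU _ h3C), h4.trans (hexpU _ h3C)⟩
    · have h1 := Pool.BFL.Cnl.P2_pair hq (D.wn J ((k + U) * z))
        (fun ω ω' => ∀ y : Fin n → ℝ, (∀ i, |y i| ≤ 2) →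
          (∀ i, |D.thT K d z C₁ C₂ (k + U) (k + 3 * U) (D.cs (k + 3 * U) ω') y i -
            eval (D.thT K d z C₁ C₂ (k + U) (k + 3 * U) (D.cs (k + 3 * U) ω) y)
            (flow (fun i : Fin n => d i) (vfT d n (Real.exp ((C₂ + 1) * z)) (f (V ω)))
              (-(((D.tm J z (k + 3 * U) ω' - D.tm J z (k + 3 * U) ω : ℤ) : ℝ) /
                2 ^ (2 * U * z))) i)| ≤ Real.exp (C₃ * z) / 2 ^ (U * z)) ∧
          |D.shN K d z C₁ C₂ (k + U) (k + 3 * U) (D.cs (k + 3 * U) ω') y -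
            D.shN K d z C₁ C₂ (k + U) (k + 3 * U) (D.cs (k + 3 * U) ω) y +
            eval (D.thT K d z C₁ C₂ (k + U) (k + 3 * U) (D.cs (k + 3 * U) ω) y)
            (hfl (d n) (vfT d n (Real.exp ((C₂ + 1) * z)) (f (V ω)))
              (vfN d n (Real.exp ((C₂ + 1) * z)) (f (V ω)))
              (-(((D.tm J z (k + 3 * U) ω' - D.tm J z (k + 3 * U) ω : ℤ) : ℝ) /
                2 ^ (2 * U * z))))| ≤ Real.exp (C₃ * z) / 2 ^ (U * z))
        (fun ω => D.JG d z (fun i => (d i : ℝ)) C₂ M n ω ∧ D.LG d z C5 n (D.ln ω)) (by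
          intro ω ω' hω hω' e hG hG' y hy
          have hvf : vfT d n (Real.exp ((C₂ + 1) * z)) (f (V ω)) =
              vfT d n (Real.exp ((C₂ + 1) * z)) (D.vf d z (U + 1) C₂ n ω) := by
            have e1 : ∀ i : Fin n, f (V ω) i = D.vf d z (U + 1) C₂ n ω i := fun i =>
              hf ω i (by have := i.2; omega)
            unfold vfT
            simp only [e1]
          have hvn : vfN d n (Real.exp ((C₂ + 1) * z)) (f (V ω)) =
              vfN d n (Real.exp ((C₂ + 1) * z)) (D.vf d z (U + 1) C₂ n ω) := by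
            unfold vfN
            rw [hf ω n le_rfl]
          rw [hvf, hvn]
          obtain ⟨a1, a2⟩ := hP J z k κ D q hzP hOk hk ω ω' hω hω' e hG.1 hG'.1 hG.2 y hy
          exact ⟨fun i => (a1 i).trans (hexpU _ h3T), a2.trans (hexpU _ h3T)⟩)
      refine h1.trans ?_
      have h2 : Pb q (fun ω => ¬ (D.JG d z (fun i => (d i : ℝ)) C₂ M n ω ∧
          D.LG d z C5 n (D.ln ω))) ≤ η / 4 + η / 4 := by
        refine (Pool.Agent.H39.BFL.Pb_mono hq0 ?_).trans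
          (Pool.Agent.H39.BFL.Pb_or_le hq0 hPJ hPT)
        intro ω _ h3
        by_cases h4 : D.JG d z (fun i => (d i : ℝ)) C₂ M n ω
        · exact Or.inr fun h5 => h3 ⟨h4, h5⟩
        · exact Or.inl h4
      linarith
    · have h1 := time_full hOk hvv hk
      rw [hsub] at h1
      refine le_trans ?_ h1
      have h2 : κ * z ≤ C₃ * z := mul_le_mul_of_nonneg_right (hκ1.trans h31) hz0
      linarith
    · have h1 : CH q V (D.cs (k + U)) = CH q V (D.c (k + U)) :=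
        CH_congr hq0 (fun _ _ _ _ h => (Prod.ext_iff.mp h).1)
          (fun _ _ _ _ h => (Prod.ext_iff.mp h).1) (cs_c _) (c_cs hOk hvM)
      have h2 : CH q V (D.cs (k + 3 * U)) = CH q V (D.c (k + 3 * U)) :=
        CH_congr hq0 (fun _ _ _ _ h => (Prod.ext_iff.mp h).1)
          (fun _ _ _ _ h => (Prod.ext_iff.mp h).1) (cs_c _) (c_cs hOk hk)
      rw [h1, h2]
      refine hV.trans ?_
      calc (z : ℝ) = 1 * z := (one_mul _).symm
        _ ≤ C₃ * z := mul_le_mul_of_nonneg_right h31 hz0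

end Pool.STAT
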