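import Pool.Agent.H19.BFL.Stmts

/-!
# The algebra of the weighted walk

The end point of a walk is `(g π', Q' + q π')`: `π'` and `Q'` are homogeneous in the lengths of the
outgoing legs. If the determinants of the derivatives in the directions of the incoming legs and
of one outgoing leg are small, then `Q'` is a polynomial of `π'`, up to a small error.
-/

set_option autoImplicit false

namespace Pool.STAT

open Finset MvPolynomial
open Pool.BFL (Pl CB)

variable {n M : ℕ}

/-! ### Homogeneous parts and substitution -/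

section Sub

variable (d : Fin n → ℕ) (π : Fin n → Pl M) (hπ : ∀ k, (π k).IsHomogeneous (d k))

include hπ in
theorem bind_monomial (e : Fin n →₀ ℕ) (c : ℝ) :
    (bind₁ π (monomial e c)).IsHomogeneous (Finsupp.weight d e) := by
  rw [bind₁_monomial]
  have h1 : (∏ i ∈ e.support, π i ^ e i).IsHomogeneous (∑ i ∈ e.support, d i * e i) :=
    IsHomogeneous.prod _ _ _ fun i _ => (hπ i).pow (e i)
  have h2 : (∑ i ∈ e.support, d i * e i) = Finsupp.weight d e := by
    rw [Finsupp.weight_apply, Finsupp.sum]
    exact Finset.sum_congr rfl fun i _ => by rw [smul_eq_mul, mul_comm]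
  rw [← h2]
  exact h1.C_mul c

include hπ in
theorem hom_bind_monomial (e : Fin n →₀ ℕ) (c : ℝ) (j : ℕ) :
    homogeneousComponent j (bind₁ π (monomial e c)) =
      bind₁ π (weightedHomogeneousComponent d j (monomial e c)) := by
  have h1 := bind_monomial d π hπ e c
  have h2 : (monomial e c : Pl n).IsWeightedHomogeneous d (Finsupp.weight d e) :=
    isWeightedHomogeneous_monomial _ _ _ rfl
  by_cases h : Finsupp.weight d e = j
  · rw [← h, homogeneousComponent_eq_self h1, weightedHomogeneousComponent_eq_self h2]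
  · rw [weightedHomogeneousComponent_of_mem h2, homogeneousComponent_of_mem h1, if_neg (Ne.symm h),
      if_neg (Ne.symm h), map_zero]

include hπ in
/-- The homogeneous parts of a polynomial of `π`. -/
theorem hom_bind (P : Pl n) (j : ℕ) :
    homogeneousComponent j (bind₁ π P) = bind₁ π (weightedHomogeneousComponent d j P) := by
  conv_lhs => rw [P.as_sum]
  conv_rhs => rw [P.as_sum]
  rw [map_sum, map_sum, map_sum, map_sum]
  exact Finset.sum_congr rfl fun e _ => hom_bind_monomial d π hπ e _ j

include hπ in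
/-- The part of degree `j` of `(m ∘ π) Q`, for `Q` homogeneous of degree `j`. -/
theorem hom_bind_mul (hd : ∀ k, 1 ≤ d k) (m : Pl n) {Q : Pl M} {j : ℕ}
    (hQ : Q.IsHomogeneous j) :
    homogeneousComponent j (bind₁ π m * Q) = C (m.coeff 0) * Q := by
  have key : ∀ (e : Fin n →₀ ℕ) (c : ℝ),
      homogeneousComponent j (bind₁ π (monomial e c) * Q) =
        if e = 0 then C c * Q else 0 := by
    intro e c
    have h1 := (bind_monomial d π hπ e c).mul hQ
    split_ifs with h
    · subst h
      have h2 : (bind₁ π (monomial 0 c)) = C c := by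
        rw [bind₁_monomial]
        simp
      rw [h2] at h1 ⊢
      have h3 : Finsupp.weight d (0 : Fin n →₀ ℕ) + j = j := by
        rw [map_zero, zero_add]
      rw [h3] at h1
      exact homogeneousComponent_eq_self h1
    · have h3 : 0 < Finsupp.weight d e := by
        rw [Nat.pos_iff_ne_zero]
        intro h4
        apply h
        ext i
        rw [Finsupp.weight_apply, Finsupp.sum, Finset.sum_eq_zero_iff] at h4
        by_contra h5
        have h6 := h4 i (Finsupp.mem_support_iff.2 h5)
        rw [smul_eq_mul, Nat.mul_eq_zero] at h6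
        rcases h6 with h6 | h6
        · exact h5 (by rw [h6]; rfl)
        · have := hd i
          omega
      rw [homogeneousComponent_of_mem h1, if_neg (by omega)]
  conv_lhs => rw [m.as_sum]
  rw [map_sum, Finset.sum_mul, map_sum, Finset.sum_congr rfl fun e _ => key e _]
  by_cases h0 : (0 : Fin n →₀ ℕ) ∈ m.support
  · rw [Finset.sum_ite_eq' m.support (0 : Fin n →₀ ℕ) fun e => C (m.coeff e) * Q, if_pos h0]
  · rw [Finset.sum_ite_eq' m.support (0 : Fin n →₀ ℕ) fun e => C (m.coeff e) * Q, if_neg h0]
    rw [notMem_support_iff] at h0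
    rw [h0, map_zero, zero_mul]

end Sub

/-! ### Bounds for the coefficients -/

theorem cb_add {P P' : Pl M} {r r' : ℝ} (h : CB P r) (h' : CB P' r') : CB (P + P') (r + r') := by
  intro k
  rw [coeff_add]
  exact (abs_add_le _ _).trans (add_le_add (h k) (h' k))

theorem cb_sum {ι : Type*} (s : Finset ι) (P : ι → Pl M) (r : ι → ℝ)
    (h : ∀ i ∈ s, CB (P i) (r i)) : CB (∑ i ∈ s, P i) (∑ i ∈ s, r i) := by
  intro k
  rw [coeff_sum]
  exact (Finset.abs_sum_le_sum_abs _ _).trans (Finset.sum_le_sum fun i hi => h i hi k)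

theorem cb_X {P : Pl M} {r : ℝ} (hr : 0 ≤ r) (h : CB P r) (a : Fin M) : CB (X a * P) r := by
  classical
  intro k
  rw [coeff_X_mul']
  split_ifs
  · exact h _
  · rw [abs_zero]
    exact hr

theorem cb_hom {P : Pl M} {r : ℝ} (hr : 0 ≤ r) (h : CB P r) (j : ℕ) :
    CB (homogeneousComponent j P) r := by
  intro k
  rw [coeff_homogeneousComponent]
  split_ifs
  · exact h k
  · rw [abs_zero]
    exact hr

/-! ### The lemma -/

/-- The polynomial `-(j m₀) φ`: the part of weight `j` of `∑ d_k z_k C_k`. -/
noncomputable def wpart (d : Fin n → ℕ) (j : ℕ) (C' : Fin n → Pl n) : Pl n :=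
  weightedHomogeneousComponent d j (∑ k, (d k : Pl n) * (X k * C' k))

theorem wpart_hom (d : Fin n → ℕ) (j : ℕ) (C' : Fin n → Pl n) :
    (wpart d j C').IsWeightedHomogeneous d j :=
  weightedHomogeneousComponent_isWeightedHomogeneous j _

/-- **(ALGW)** If the forms `∑ C_k(π) dπ_k + m(π) dQ` are small then `j m(0) Q` is a polynomial of
weight `j` of `π`, up to the same error. -/
theorem algw (d : Fin n → ℕ) (hd : ∀ k, 1 ≤ d k) (j : ℕ) (π : Fin n → Pl M)
    (hπ : ∀ k, (π k).IsHomogeneous (d k)) (Q : Pl M) (hQ : Q.IsHomogeneous j)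
    (C' : Fin n → Pl n) (m : Pl n) (r : ℝ) (hr : 0 ≤ r)
    (hD : ∀ a : Fin M, CB ((∑ k, bind₁ π (C' k) * pderiv a (π k)) + bind₁ π m * pderiv a Q) r) :
    CB (bind₁ π (wpart d j C') + C ((j : ℝ) * m.coeff 0) * Q) (M * r) := by
  have h1 : CB (∑ a : Fin M, X a * ((∑ k, bind₁ π (C' k) * pderiv a (π k)) +
      bind₁ π m * pderiv a Q)) (M * r) := by
    have := cb_sum (Finset.univ : Finset (Fin M)) _ (fun _ => r)
      fun a _ => cb_X hr (hD a) a
    simpa using this
  have h2 : (∑ a : Fin M, X a * ((∑ k, bind₁ π (C' k) * pderiv a (π k)) +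
      bind₁ π m * pderiv a Q)) =
      bind₁ π (∑ k, (d k : Pl n) * (X k * C' k)) + C (j : ℝ) * (bind₁ π m * Q) := by
    have e1 : ∀ k, ∑ a : Fin M, X a * pderiv a (π k) = (d k : Pl M) * π k := fun k => by
      rw [(hπ k).sum_X_mul_pderiv, nsmul_eq_mul]
    have e2 : ∑ a : Fin M, X a * pderiv a Q = (j : Pl M) * Q := by
      rw [hQ.sum_X_mul_pderiv, nsmul_eq_mul]
    have e3 : (C (j : ℝ) : Pl M) = (j : Pl M) := map_natCast C j
    rw [map_sum, e3]
    calc (∑ a : Fin M, X a * ((∑ k, bind₁ π (C' k) * pderiv a (π k)) +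
          bind₁ π m * pderiv a Q))
        = (∑ k, bind₁ π (C' k) * ∑ a : Fin M, X a * pderiv a (π k)) +
            bind₁ π m * ∑ a : Fin M, X a * pderiv a Q := by
          simp only [mul_add, Finset.sum_add_distrib, Finset.mul_sum]
          rw [Finset.sum_comm]
          congr 1
          · exact Finset.sum_congr rfl fun k _ => Finset.sum_congr rfl fun a _ => by ring
          · exact Finset.sum_congr rfl fun a _ => by ring
      _ = _ := by
          rw [e2]
          simp only [e1, map_mul, map_natCast, bind₁_X_right]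
          congr 1
          · exact Finset.sum_congr rfl fun k _ => by ring
          · ring
  have h3 := cb_hom (by positivity) h1 j
  rw [h2, map_add, hom_bind d π hπ, homogeneousComponent_C_mul, hom_bind_mul d π hπ hd m hQ] at h3
  have h4 : (C ((j : ℝ) * m.coeff 0) : Pl M) * Q = C (j : ℝ) * (C (m.coeff 0) * Q) := by
    rw [C_mul, mul_assoc]
  rw [h4]
  exact h3

end Pool.STAT
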