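import Pool.Agent.H64.STAT.Fit

/-!
# ASM (B): numbers
-/

set_option autoImplicit false

namespace Pool.STAT

open Finset

theorem exp_big (A a : ℝ) (ha : 0 < a) : ∃ U₀ : ℕ, ∀ U : ℕ, U₀ ≤ U → A ≤ Real.exp (a * U) := by
  obtain ⟨U₀, h⟩ := exists_nat_ge (A / a)
  refine ⟨U₀, fun U hU => ?_⟩
  have h1 : A ≤ a * U := by
    have h2 : A / a ≤ U := h.trans (by exact_mod_cast hU)
    rw [div_le_iff₀ ha] at h2
    linarith
  exact (h1.trans (by linarith)).trans (Real.add_one_le_exp (a * U))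

theorem num_B (K K₀ K₁ K₂ : ℕ) (κ : ℝ) (hκ : 0 < κ) (hκ1 : κ ≤ 1) : ∃ τ₀ : ℝ, 0 < τ₀ ∧
    ∃ U₀ : ℕ, ∀ τ : ℝ, 0 < τ → τ ≤ τ₀ → ∀ U : ℕ, U₀ ≤ U →
    (K₀ : ℝ) * Real.exp (τ * U) ^ K₀ / Real.exp (-(τ * U)) ≤ Real.exp (κ * U / 4) ∧
    (K : ℝ) * Real.exp (τ * U) ^ K * (((K₁ : ℝ) * Real.exp (τ * U) ^ K₁ * Real.exp (-(κ * U)) /
      Real.exp (-(τ * U)) + (K₂ : ℝ) * Real.exp (τ * U) ^ K₂ * Real.exp (-(κ * U)) /
      Real.exp (-(τ * U))) / Real.exp (-(τ * U)) ^ K +
      (1 + (K₀ : ℝ) * Real.exp (τ * U) ^ K₀ / Real.exp (-(τ * U))) *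
        (Real.exp (τ * U) / 2 ^ U)) ≤ Real.exp (-(κ * U / 2)) := by
  obtain ⟨A, hA⟩ : ∃ A : ℕ, A = K + K₀ + K₁ + K₂ + 1 := ⟨_, rfl⟩
  obtain ⟨U₀, hU₀⟩ := exp_big (4 * (A : ℝ) * A) (κ / 16) (by positivity)
  have hA0 : (0 : ℝ) < 3 * A + 2 := by positivity
  refine ⟨κ / (16 * (3 * A + 2)), by positivity, U₀, fun τ hτ hττ U hU => ?_⟩
  have hbig := hU₀ U hU
  have hA1 : (1 : ℝ) ≤ A := by
    have : 1 ≤ A := by omega
    exact_mod_cast this
  have hU0 : (0 : ℝ) ≤ U := Nat.cast_nonneg U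
  obtain ⟨R, hR⟩ : ∃ R : ℝ, R = Real.exp (τ * U) := ⟨_, rfl⟩
  have hRi : Real.exp (-(τ * U)) = R⁻¹ := by rw [hR, Real.exp_neg]
  have hR1 : 1 ≤ R := by
    rw [hR]
    exact Real.one_le_exp (by positivity)
  have hR0 : 0 < R := by linarith
  have hRp : R ^ (3 * A + 2) ≤ Real.exp (κ * U / 16) := by
    rw [hR, ← Real.exp_nat_mul]
    refine Real.exp_le_exp.2 ?_
    rw [le_div_iff₀ (by positivity)] at hττ
    push_cast
    have h1 : τ * (16 * (3 * A + 2)) * U ≤ κ * U := mul_le_mul_of_nonneg_right hττ hU0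
    linarith
  have hK : ∀ k : ℕ, k ≤ A → (k : ℝ) * R ^ k ≤ A * R ^ A := fun k hk => kr_mono hk hR1
  have hpw : ∀ a b : ℕ, a ≤ b → R ^ a ≤ R ^ b := fun a b h => pow_le_pow_right₀ hR1 h
  have hB : (K₀ : ℝ) * R ^ K₀ / R⁻¹ ≤ A * R ^ (A + 1) := by
    rw [div_inv_eq_mul, pow_succ, ← mul_assoc]
    exact mul_le_mul_of_nonneg_right (hK K₀ (by omega)) hR0.le
  have hB0 : 0 ≤ (K₀ : ℝ) * R ^ K₀ / R⁻¹ := by positivity
  rw [hRi, ← hR]
  constructor
  · refine hB.trans ?_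
    have h1 : (A : ℝ) ≤ Real.exp (κ / 16 * U) := by
      refine le_trans ?_ hbig
      nlinarith
    have h2 : R ^ (A + 1) ≤ Real.exp (κ * U / 16) := (hpw _ _ (by omega)).trans hRp
    calc (A : ℝ) * R ^ (A + 1) ≤ Real.exp (κ / 16 * U) * Real.exp (κ * U / 16) :=
          mul_le_mul h1 h2 (by positivity) (Real.exp_pos _).le
      _ = Real.exp (κ / 16 * U + κ * U / 16) := (Real.exp_add _ _).symm
      _ ≤ Real.exp (κ * U / 4) := by
          refine Real.exp_le_exp.2 ?_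
          have : 0 ≤ κ * U := by positivity
          linarith
  · obtain ⟨e, he⟩ : ∃ e : ℝ, e = Real.exp (-(5 * κ * U / 8)) := ⟨_, rfl⟩
    have he0 : 0 < e := by
      rw [he]
      exact Real.exp_pos _
    have h1 : Real.exp (-(κ * U)) ≤ e := by
      rw [he]
      refine Real.exp_le_exp.2 ?_
      have : 0 ≤ κ * U := by positivity
      linarith
    have h2 : 1 / (2 : ℝ) ^ U ≤ e := by
      have h3 : (2 : ℝ) ^ U = Real.exp (U * Real.log 2) := by
        rw [Real.exp_nat_mul, Real.exp_log (by norm_num)]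
      rw [h3, he, one_div, ← Real.exp_neg]
      refine Real.exp_le_exp.2 ?_
      have h4 := Real.log_two_gt_d9
      have h5 : κ * U ≤ 1 * U := mul_le_mul_of_nonneg_right hκ1 hU0
      have h6 : (5 / 8 : ℝ) * U ≤ Real.log 2 * U := mul_le_mul_of_nonneg_right (by linarith) hU0
      linarith
    have hd : ∀ k : ℕ, k ≤ A → (k : ℝ) * R ^ k * Real.exp (-(κ * U)) / R⁻¹ ≤
        A * R ^ (A + 1) * e := fun k hk => by
      rw [div_inv_eq_mul]
      have h3 := mul_le_mul (hK k hk) h1 (Real.exp_pos _).le (by positivity)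
      calc (k : ℝ) * R ^ k * Real.exp (-(κ * U)) * R ≤ (A * R ^ A * e) * R :=
            mul_le_mul_of_nonneg_right h3 hR0.le
        _ = A * R ^ (A + 1) * e := by ring
    have h3 : ((K₁ : ℝ) * R ^ K₁ * Real.exp (-(κ * U)) / R⁻¹ +
        (K₂ : ℝ) * R ^ K₂ * Real.exp (-(κ * U)) / R⁻¹) / R⁻¹ ^ K ≤
        2 * A * R ^ (2 * A + 2) * e := by
      rw [inv_pow, div_inv_eq_mul]
      have h4 := add_le_add (hd K₁ (by omega)) (hd K₂ (by omega))
      have h5 : R ^ K ≤ R ^ (A + 1) := hpw _ _ (by omega)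
      have h6 := mul_le_mul h4 h5 (by positivity) (by positivity)
      refine h6.trans (le_of_eq ?_)
      have : R ^ (2 * A + 2) = R ^ (A + 1) * R ^ (A + 1) := by
        rw [← pow_add]
        congr 1
        ring
      rw [this]
      ring
    have h4 : (1 + (K₀ : ℝ) * R ^ K₀ / R⁻¹) * (R / 2 ^ U) ≤ 2 * A * R ^ (2 * A + 2) * e := by
      have h5 : 1 + (K₀ : ℝ) * R ^ K₀ / R⁻¹ ≤ 2 * A * R ^ (A + 1) := by
        have h6 : (1 : ℝ) ≤ A * R ^ (A + 1) := by
          have := one_le_pow₀ hR1 (n := A + 1)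
          nlinarith
        linarith
      have h6 : R / 2 ^ U ≤ R ^ (A + 1) * e := by
        rw [div_eq_mul_one_div]
        have h7 : R ≤ R ^ (A + 1) := by
          have := hpw 1 (A + 1) (by omega)
          rwa [pow_one] at this
        exact mul_le_mul h7 h2 (by positivity) (by positivity)
      refine (mul_le_mul h5 h6 (by positivity) (by positivity)).trans (le_of_eq ?_)
      have : R ^ (2 * A + 2) = R ^ (A + 1) * R ^ (A + 1) := by
        rw [← pow_add]
        congr 1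
        ring
      rw [this]
      ring
    have h5 := mul_le_mul (hK K (by omega)) (add_le_add h3 h4) (by positivity) (by positivity)
    refine h5.trans ?_
    calc (A : ℝ) * R ^ A * (2 * A * R ^ (2 * A + 2) * e + 2 * A * R ^ (2 * A + 2) * e) =
        (4 * A * A) * R ^ (3 * A + 2) * e := by
          have : R ^ (3 * A + 2) = R ^ A * R ^ (2 * A + 2) := by
            rw [← pow_add]
            congr 1
            ring
          rw [this]
          ring
      _ ≤ Real.exp (κ / 16 * U) * Real.exp (κ * U / 16) * e := by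
          refine mul_le_mul_of_nonneg_right ?_ he0.le
          exact mul_le_mul hbig hRp (by positivity) (Real.exp_pos _).le
      _ = Real.exp (κ / 16 * U + κ * U / 16 + -(5 * κ * U / 8)) := by
          rw [he, Real.exp_add, Real.exp_add]
      _ = Real.exp (-(κ * U / 2)) := by
          congr 1
          ring

end Pool.STAT
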