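import Pool.Agent.H64.STAT.Rows

/-!
# The weighted core: rows, forms which are uniform in the outgoing walk
-/

set_option autoImplicit false

namespace Pool.STAT

open Finset MvPolynomial
open Pool.BFL (Pl CB Pb P2 MC alt)

/-- Row SPL, with data which do not depend on the outgoing walk. -/
def SplMStmt : Prop :=
  ∀ (c j L : ℕ) (d : Fin c → ℕ), (∀ i, 1 ≤ d i) → 1 ≤ j → ∃ K : ℕ, ∀ (R : ℝ), 1 ≤ R →
    ∀ (ξ : Fin L → Fin c → Pl c) (b : Fin L → Pl c) (σ : Fin L → ℝ), (∀ a, VF d (ξ a)) →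
    (∀ a, (b a).IsWeightedHomogeneous d (j - 1)) → (∀ a i, CB (ξ a i) R) → (∀ a, CB (b a) R) →
    (∀ a, |σ a| ≤ 1) →
    ∃ (GT : Fin c → Pl c) (GN : Pl c) (DT : Fin L → Fin c → Pl c) (DN : Fin L → Pl c),
      (∀ i, (GT i).totalDegree ≤ K ∧ CB (GT i) (K * R ^ K)) ∧
      (GN.totalDegree ≤ K ∧ CB GN (K * R ^ K)) ∧
      (∀ l i, (DT l i).totalDegree ≤ K ∧ CB (DT l i) (K * R ^ K)) ∧
      (∀ l, (DN l).totalDegree ≤ K ∧ CB (DN l) (K * R ^ K)) ∧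
      (∀ l i, eval σ (pderiv l (wT d L ξ i)) = eval 0 (DT l i)) ∧
      ∀ (M : ℕ) (ξ' : Fin M → Fin c → Pl c) (b' : Fin M → Pl c) (σ' : Fin M → ℝ),
        let u : Fin c → ℝ := fun k => eval σ' (wT d M ξ' k)
        let Ξ : Fin (L + M) → Fin c → Pl c := Fin.append ξ ξ'
        let Bb : Fin (L + M) → Pl c := Fin.append b b'
        let ρ : Fin (L + M) → ℝ := Fin.append σ σ'
        (∀ i, eval ρ (wT d (L + M) Ξ i) = eval u (GT i)) ∧
        eval ρ (wH d j (L + M) Ξ Bb) = eval σ' (wH d j M ξ' b') + eval u GN ∧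
        (∀ l i, eval ρ (pderiv (Fin.castAdd M l) (wT d (L + M) Ξ i)) = eval u (DT l i)) ∧
        (∀ l, eval ρ (pderiv (Fin.castAdd M l) (wH d j (L + M) Ξ Bb)) = eval u (DN l)) ∧
        (∀ a i, eval ρ (pderiv (Fin.natAdd L a) (wT d (L + M) Ξ i)) =
          ∑ k, eval u (pderiv k (GT i)) * eval σ' (pderiv a (wT d M ξ' k))) ∧
        ∀ a, eval ρ (pderiv (Fin.natAdd L a) (wH d j (L + M) Ξ Bb)) =
          eval σ' (pderiv a (wH d j M ξ' b')) +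
            ∑ k, eval u (pderiv k GN) * eval σ' (pderiv a (wT d M ξ' k))

/-- Row PHI, with a polynomial which does not depend on the outgoing walk. -/
def PhiMStmt : Prop :=
  ∀ (c j L : ℕ) (d : Fin c → ℕ), (∀ i, 1 ≤ d i) → 1 ≤ j → ∃ K : ℕ → ℕ, ∀ (R κ : ℝ), 1 ≤ R →
    0 < κ → κ ≤ 1 → ∀ (ξ : Fin L → Fin c → Pl c) (b : Fin L → Pl c) (σ : Fin L → ℝ),
    (∀ a, VF d (ξ a)) → (∀ a, (b a).IsWeightedHomogeneous d (j - 1)) → (∀ a i, CB (ξ a i) R) →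
    (∀ a, CB (b a) R) → (∀ a, |σ a| ≤ 1) → TBig d ξ κ σ →
    ∃ Φ : Pl c, Φ.IsWeightedHomogeneous d j ∧ CB Φ (K 0 * R ^ K 0 / κ) ∧
      ∀ (M : ℕ) (ξ' : Fin M → Fin c → Pl c) (b' : Fin M → Pl c) (r : ℝ), (∀ a, VF d (ξ' a)) →
        (∀ a, (b' a).IsWeightedHomogeneous d (j - 1)) → 0 ≤ r →
        Flat d j (Fin.append ξ ξ' : Fin (L + M) → Fin c → Pl c)
          (Fin.append b b' : Fin (L + M) → Pl c) r →
        CB (bind₁ (wT d M ξ') Φ - wH d j M ξ' b') (K M * R ^ K M * r / κ)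

end Pool.STAT
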