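import Pool.Agent.H64.STAT.Phi
import Pool.Agent.H64.STAT.Rows2

/-!
# The weighted core: row PHI, uniform in the outgoing walk
-/

set_option autoImplicit false

namespace Pool.STAT

open Finset MvPolynomial
open Pool.BFL (Pl CB Pb P2 MC alt)

variable {c L : ℕ}

/-- **Row PHI**, uniform. -/
theorem phiM_of (hF : Flw1Stmt) (hS : SplMStmt) : PhiMStmt := by
  classical
  intro c j L d hd hj
  obtain ⟨K₀, hS⟩ := hS c j L d hd hj
  obtain ⟨K₁, hK₁⟩ := pb_det c c K₀
  obtain ⟨D, hD⟩ : ∃ D : ℕ, D = (c + 1) * ((∑ k, d k) + j) := ⟨_, rfl⟩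
  obtain ⟨K₂, hK₂⟩ : ∃ K₂ : ℕ, K₂ = (K₁ + 1) ^ c * (K₁ * (K₀ * K₀ + K₀)) +
      (K₁ + (K₀ * K₀ + K₀)) := ⟨_, rfl⟩
  obtain ⟨K₃, hK₃⟩ : ∃ K₃ : ℕ, K₃ = (c * K₂ + K₂) + K₂ := ⟨_, rfl⟩
  refine ⟨fun M => (∑ k, d k) * K₃ + K₃ + M * (D + 1) ^ (L + M), ?_⟩
  intro R κ hR hκ hκ1 ξ b σ hξ hb hξR hbR hσ hbig
  obtain ⟨e, he⟩ := hbig
  obtain ⟨GT, GN, DT, DN, hGT, hGN, hDT, hDN, h0, hsp⟩ := hS R hR ξ b σ hξ hb hξR hbR hσ
  obtain ⟨C', hC'⟩ : ∃ C' : Fin c → Pl c, C' = fun l =>
      (∑ i : Fin c, cof DT DN e (Fin.castSucc i) * pderiv l (GT i)) +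
        cof DT DN e (Fin.last c) * pderiv l GN := ⟨_, rfl⟩
  obtain ⟨m, hm⟩ : ∃ m : Pl c, m = cof DT DN e (Fin.last c) := ⟨_, rfl⟩
  -- the constant term of m
  have hm0 : m.coeff 0 = eval σ (minT d ξ e) := by
    have h1 : m.coeff 0 = eval 0 m := by
      rw [eval_zero, constantCoeff_eq]
    have h2 : (Matrix.of fun i k : Fin c => DT (e k) i).map (eval (0 : Fin c → ℝ)) =
        (Matrix.of fun i k : Fin c => pderiv (e k) (wT d L ξ i)).map (eval σ) := by
      ext i k
      rw [Matrix.map_apply, Matrix.map_apply, Matrix.of_apply, Matrix.of_apply, h0]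
    have h3 : eval 0 (Matrix.of fun i k : Fin c => DT (e k) i).det =
        ((Matrix.of fun i k : Fin c => DT (e k) i).map (eval (0 : Fin c → ℝ))).det := by
      rw [RingHom.map_det]
      rfl
    have h4 : eval σ (Matrix.of fun i k : Fin c => pderiv (e k) (wT d L ξ i)).det =
        ((Matrix.of fun i k : Fin c => pderiv (e k) (wT d L ξ i)).map (eval σ)).det := by
      rw [RingHom.map_det]
      rfl
    rw [h1, hm, cof_last, h3, h2, ← h4]
    rfl
  have hm1 : κ ≤ |m.coeff 0| := by rw [hm0]; exact he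
  have hmne : m.coeff 0 ≠ 0 := by
    intro h
    rw [h, abs_zero] at hm1
    linarith
  have hj0 : (0 : ℝ) < j := by exact_mod_cast hj
  have hj1 : (1 : ℝ) ≤ j := by exact_mod_cast hj
  -- bounds
  have hR0 : (0 : ℝ) < R := by linarith
  have hcof : ∀ i, PB K₁ R (cof DT DN e i) := fun i =>
    neg_one_pow_mul_pb (hK₁ R hR _ fun p k => by
      rw [Matrix.submatrix_apply]
      exact colM_pb hDT hDN _ _)
  have hCb : ∀ l, PB K₃ R (C' l) := by
    intro l
    rw [hC', hK₃]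
    have h1 : ∀ i : Fin c, PB K₂ R (cof DT DN e (Fin.castSucc i) * pderiv l (GT i)) := fun i => by
      rw [hK₂]
      exact PB.mul hR (hcof _) (PB.pderiv hR (hGT i) l)
    have h2 : PB K₂ R (cof DT DN e (Fin.last c) * pderiv l GN) := by
      rw [hK₂]
      exact PB.mul hR (hcof _) (PB.pderiv hR hGN l)
    exact PB.add hR (PB.sum hR _ h1) h2
  obtain ⟨a₀, ha₀⟩ : ∃ a₀ : ℝ, a₀ = -(1 / ((j : ℝ) * m.coeff 0)) := ⟨_, rfl⟩
  have ha₁ : |a₀| ≤ 1 / κ := by
    rw [ha₀, abs_neg, abs_div, abs_one, abs_mul, abs_of_pos hj0]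
    refine one_div_le_one_div_of_le hκ ?_
    calc κ = 1 * κ := (one_mul κ).symm
      _ ≤ j * |m.coeff 0| := mul_le_mul hj1 hm1 hκ.le hj0.le
  have ha₂ : a₀ * ((j : ℝ) * m.coeff 0) = -1 := by
    rw [ha₀]
    field_simp
  have hB0 : (0 : ℝ) ≤ (K₃ : ℝ) * R ^ K₃ := kr_nonneg K₃ hR
  refine ⟨C a₀ * wpart d j C', ?_, ?_, ?_⟩
  · exact (wpart_hom d j C').C_mul a₀
  · obtain ⟨M, hM⟩ : ∃ M : ℕ, M = 0 := ⟨_, rfl⟩
    rw [← hM]
    have h1 := cb_C_mul a₀ (cb_wpart (d := d) (j := j) hB0 fun k => (hCb k).2)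
    refine cb_mono h1 ?_
    have h2 : (((∑ k, d k : ℕ) : ℝ) * (K₃ * R ^ K₃)) ≤
        (((∑ k, d k) * K₃ + K₃ + M * (D + 1) ^ (L + M) : ℕ) : ℝ) *
          R ^ ((∑ k, d k) * K₃ + K₃ + M * (D + 1) ^ (L + M)) := by
      have h3 : R ^ K₃ ≤ R ^ ((∑ k, d k) * K₃ + K₃ + M * (D + 1) ^ (L + M)) :=
        pow_le_pow_right₀ hR (by omega)
      rw [← mul_assoc]
      refine mul_le_mul ?_ h3 (by positivity) (by positivity)
      have h4 : (∑ k, d k) * K₃ ≤ (∑ k, d k) * K₃ + K₃ + M * (D + 1) ^ (L + M) := by omega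
      exact_mod_cast h4
    calc |a₀| * (((∑ k, d k : ℕ) : ℝ) * (K₃ * R ^ K₃)) ≤ 1 / κ * _ :=
          mul_le_mul ha₁ h2 (by positivity) (by positivity)
      _ = _ := by ring
  · intro M ξ' b' r hξ' hb' hr hfl
    have hΞ : ∀ a, VF d ((Fin.append ξ ξ' : Fin (L + M) → Fin c → Pl c) a) := fun a => by
      refine Fin.addCases (fun l => ?_) (fun l => ?_) a
      · rw [Fin.append_left]
        exact hξ l
      · rw [Fin.append_right]
        exact hξ' l
    have hBb : ∀ a, ((Fin.append b b' : Fin (L + M) → Pl c) a).IsWeightedHomogeneous d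
        (j - 1) := fun a => by
      refine Fin.addCases (fun l => ?_) (fun l => ?_) a
      · rw [Fin.append_left]
        exact hb l
      · rw [Fin.append_right]
        exact hb' l
    obtain ⟨hTh, hNh⟩ := hF c j (L + M) d _ _ hd hj hΞ hBb
    obtain ⟨hTh', hNh'⟩ := hF c j M d ξ' b' hd hj hξ' hb'
    have hPa : ∀ a : Fin M, (∑ k, bind₁ (wT d M ξ') (C' k) * pderiv a (wT d M ξ' k)) +
        bind₁ (wT d M ξ') m * pderiv a (wH d j M ξ' b') =
        part σ (minA d j (Fin.append ξ ξ') (Fin.append b b')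
          (Fin.snoc (fun k => Fin.castAdd M (e k)) (Fin.natAdd L a))) := by
      intro a
      refine MvPolynomial.funext fun σ' => ?_
      rw [eval_part]
      obtain ⟨-, -, hs3, hs4, hs5, hs6⟩ := hsp M ξ' b' σ'
      obtain ⟨u, hu⟩ : ∃ u : Fin c → ℝ, u = fun k => eval σ' (wT d M ξ' k) := ⟨_, rfl⟩
      rw [← hu] at hs3 hs4 hs5 hs6
      obtain ⟨ρ, hρ⟩ : ∃ ρ : Fin (L + M) → ℝ, ρ = Fin.append σ σ' := ⟨_, rfl⟩
      rw [← hρ] at hs3 hs4 hs5 hs6 ⊢
      have hbd : ∀ F : Pl c, eval σ' (bind₁ (wT d M ξ') F) = eval u F := fun F => by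
        rw [hu, evb]
      obtain ⟨A, hA⟩ : ∃ A : Matrix (Fin (c + 1)) (Fin (c + 1)) ℝ, A = fun i k =>
          eval ρ (pderiv ((Fin.snoc (fun k => Fin.castAdd M (e k)) (Fin.natAdd L a) :
            Fin (c + 1) → Fin (L + M)) k)
            ((Fin.snoc (wT d (L + M) (Fin.append ξ ξ'))
              (wH d j (L + M) (Fin.append ξ ξ') (Fin.append b b')) : Fin (c + 1) → Pl (L + M))
              i)) := ⟨_, rfl⟩
      have hdet : eval ρ (minA d j (Fin.append ξ ξ') (Fin.append b b')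
          (Fin.snoc (fun k => Fin.castAdd M (e k)) (Fin.natAdd L a))) = A.det := by
        unfold minA
        rw [RingHom.map_det, hA]
        rfl
      have hA1 : ∀ i k, A i (Fin.castSucc k) = eval u (colM DT DN e i k) := by
        intro i k
        rw [hA]
        unfold colM
        simp only [Fin.snoc_castSucc]
        refine Fin.lastCases ?_ (fun i => ?_) i
        · rw [Fin.snoc_last, Fin.snoc_last]
          exact hs4 (e k)
        · rw [Fin.snoc_castSucc, Fin.snoc_castSucc]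
          exact hs3 (e k) i
      rw [hdet, det_last DT DN e A hA1, Fin.sum_univ_castSucc]
      have hA2 : ∀ i : Fin c, A (Fin.castSucc i) (Fin.last c) =
          ∑ k, eval u (pderiv k (GT i)) * eval σ' (pderiv a (wT d M ξ' k)) := fun i => by
        rw [hA]
        simp only [Fin.snoc_castSucc, Fin.snoc_last]
        exact hs5 a i
      have hA3 : A (Fin.last c) (Fin.last c) = eval σ' (pderiv a (wH d j M ξ' b')) +
          ∑ k, eval u (pderiv k GN) * eval σ' (pderiv a (wT d M ξ' k)) := by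
        rw [hA]
        simp only [Fin.snoc_last]
        exact hs6 a
      rw [hA3, map_add, map_mul, hbd, map_sum]
      simp only [hA2, map_mul, hbd, hC', map_add, map_sum]
      rw [hm]
      simp only [add_mul, Finset.sum_mul, Finset.sum_add_distrib]
      rw [Finset.sum_comm]
      have e1 : (∑ i : Fin c, ∑ l : Fin c, eval u (cof DT DN e (Fin.castSucc i)) *
          eval u (pderiv l (GT i)) * eval σ' (pderiv a (wT d M ξ' l))) =
          ∑ i : Fin c, ∑ l : Fin c, eval u (pderiv l (GT i)) *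
            eval σ' (pderiv a (wT d M ξ' l)) * eval u (cof DT DN e (Fin.castSucc i)) :=
        Finset.sum_congr rfl fun i _ => Finset.sum_congr rfl fun l _ => by ring
      have e2 : (∑ l : Fin c, eval u (cof DT DN e (Fin.last c)) * eval u (pderiv l GN) *
          eval σ' (pderiv a (wT d M ξ' l))) =
          ∑ l : Fin c, eval u (pderiv l GN) * eval σ' (pderiv a (wT d M ξ' l)) *
            eval u (cof DT DN e (Fin.last c)) :=
        Finset.sum_congr rfl fun l _ => by ring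
      rw [e1, e2]
      ring
    have hdeg : ∀ a : Fin M, (minA d j (Fin.append ξ ξ' : Fin (L + M) → Fin c → Pl c)
        (Fin.append b b') (Fin.snoc (fun k => Fin.castAdd M (e k))
          (Fin.natAdd L a))).totalDegree ≤ D := by
      intro a
      unfold minA
      rw [hD]
      refine totalDegree_det_le _ fun i k => ?_
      rw [Matrix.of_apply]
      refine totalDegree_pderiv_le' ?_ _
      refine Fin.lastCases ?_ (fun i => ?_) i
      · rw [Fin.snoc_last]
        exact hNh.totalDegree_le.trans (Nat.le_add_left _ _)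
      · rw [Fin.snoc_castSucc]
        exact (hTh i).totalDegree_le.trans ((Finset.single_le_sum (f := d)
          (fun _ _ => Nat.zero_le _) (Finset.mem_univ i)).trans (Nat.le_add_right _ _))
    have hcb : ∀ a : Fin M, CB ((∑ k, bind₁ (wT d M ξ') (C' k) * pderiv a (wT d M ξ' k)) +
        bind₁ (wT d M ξ') m * pderiv a (wH d j M ξ' b')) ((D + 1 : ℝ) ^ (L + M) * r) := by
      intro a
      rw [hPa a]
      exact cb_part hr hσ (hdeg a) (hfl _)
    have h1 := algw d hd j (wT d M ξ') hTh' (wH d j M ξ' b') hNh' C' m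
      ((D + 1 : ℝ) ^ (L + M) * r) (by positivity) hcb
    have h2 : bind₁ (wT d M ξ') (C a₀ * wpart d j C') - wH d j M ξ' b' =
        C a₀ * (bind₁ (wT d M ξ') (wpart d j C') + C ((j : ℝ) * m.coeff 0) *
          wH d j M ξ' b') := by
      have h3 : (C a₀ : Pl M) * (C ((j : ℝ) * m.coeff 0) * wH d j M ξ' b') =
          - wH d j M ξ' b' := by
        rw [← mul_assoc, ← C_mul, ha₂, C_neg, C_1, neg_one_mul]
      rw [mul_add, h3, map_mul, bind₁_C_right]
      ring
    rw [h2]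
    refine cb_mono (cb_C_mul a₀ h1) ?_
    have h5 : (M : ℝ) * ((D + 1 : ℝ) ^ (L + M) * r) ≤
        (((∑ k, d k) * K₃ + K₃ + M * (D + 1) ^ (L + M) : ℕ) : ℝ) *
          R ^ ((∑ k, d k) * K₃ + K₃ + M * (D + 1) ^ (L + M)) * r := by
      rw [← mul_assoc]
      refine mul_le_mul_of_nonneg_right ?_ hr
      have h6 : (1 : ℝ) ≤ R ^ ((∑ k, d k) * K₃ + K₃ + M * (D + 1) ^ (L + M)) :=
        one_le_pow₀ hR
      have h7 : (M : ℝ) * (D + 1 : ℝ) ^ (L + M) ≤
          (((∑ k, d k) * K₃ + K₃ + M * (D + 1) ^ (L + M) : ℕ) : ℝ) := by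
        have h8 : M * (D + 1) ^ (L + M) ≤ (∑ k, d k) * K₃ + K₃ + M * (D + 1) ^ (L + M) := by
          omega
        exact_mod_cast h8
      exact h7.trans (le_mul_of_one_le_right (by positivity) h6)
    calc |a₀| * ((M : ℝ) * ((D + 1 : ℝ) ^ (L + M) * r)) ≤ 1 / κ * _ :=
          mul_le_mul ha₁ h5 (by positivity) (by positivity)
      _ = _ := by ring

end Pool.STAT
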