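import Pool.Agent.H64.STAT.Alg

/-!
# The weighted core (window-free tubes): statements

Everything is in the scaled ball (box sides `1`). The coordinates `Fin c` have the weights `d i`,
the height has the weight `j`. `U` is the number of digits of the radius of the ball, `m ≥ 2 U` the
number of digits of the times. `ΘT x z` are the adapted coordinates (at the block `x`) of the fixed
point `z`, `FN x` is the sheet of the block `x` (height as a function of `z`).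
-/

set_option autoImplicit false

namespace Pool.STAT

open Finset MvPolynomial
open Pool.Agent.H49.Ent Pool.Agent.H32.Dense Pool.STK Pool.KS3
open Pool.BFL (Pl CB Pb P2 MC alt)

/-! ### Flows and walks -/

/-- The derivation of a vector field. -/
noncomputable def lie {c : ℕ} (ξ : Fin c → Pl c) : Derivation ℝ (Pl c) (Pl c) := mkDerivation ℝ ξ

/-- The vector field `ξ` has degree `-1` for the weights `d`. -/
def VF {c : ℕ} (d : Fin c → ℕ) (ξ : Fin c → Pl c) : Prop :=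
  ∀ i, (ξ i).IsWeightedHomogeneous d (d i - 1)

/-- The flow of `ξ` at the time `s`. -/
noncomputable def flow {c : ℕ} (d : Fin c → ℕ) (ξ : Fin c → Pl c) (s : ℝ) (i : Fin c) : Pl c :=
  ∑ r ∈ range (d i + 1), C (s ^ r / (r.factorial : ℝ)) * (lie ξ)^[r] (X i)

/-- The change of the height along the flow of `ξ`, if its velocity is `b`, of weight `j - 1`. -/
noncomputable def hfl {c : ℕ} (j : ℕ) (ξ : Fin c → Pl c) (b : Pl c) (s : ℝ) : Pl c :=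
  ∑ r ∈ range j, C (s ^ (r + 1) / ((r + 1).factorial : ℝ)) * (lie ξ)^[r] b

/-- The end point of a walk, as a polynomial in the lengths of the legs: the first leg is the
outermost one. -/
noncomputable def wT {c : ℕ} (d : Fin c → ℕ) :
    (N : ℕ) → (Fin N → Fin c → Pl c) → Fin c → Pl N
  | 0, _, _ => 0
  | N + 1, ξ, i => ∑ r ∈ range (d i + 1), C (1 / (r.factorial : ℝ)) * X 0 ^ r *
      bind₁ (fun k => rename Fin.succ (wT d N (fun a => ξ a.succ) k)) ((lie (ξ 0))^[r] (X i))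

/-- The height of the end point. -/
noncomputable def wH {c : ℕ} (d : Fin c → ℕ) (j : ℕ) :
    (N : ℕ) → (Fin N → Fin c → Pl c) → (Fin N → Pl c) → Pl N
  | 0, _, _ => 0
  | N + 1, ξ, b => rename Fin.succ (wH d j N (fun a => ξ a.succ) (fun a => b a.succ)) +
      ∑ r ∈ range j, C (1 / ((r + 1).factorial : ℝ)) * X 0 ^ (r + 1) *
        bind₁ (fun k => rename Fin.succ (wT d N (fun a => ξ a.succ) k)) ((lie (ξ 0))^[r] (b 0))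

/-- The minor of the derivative of the end point (base coordinates). -/
noncomputable def minT {c N : ℕ} (d : Fin c → ℕ) (ξ : Fin N → Fin c → Pl c)
    (e : Fin c → Fin N) : Pl N :=
  Matrix.det (Matrix.of fun i k => pderiv (e k) (wT d N ξ i))

/-- The minor of the derivative of the end point (base coordinates and height). -/
noncomputable def minA {c N : ℕ} (d : Fin c → ℕ) (j : ℕ) (ξ : Fin N → Fin c → Pl c)
    (b : Fin N → Pl c) (e : Fin (c + 1) → Fin N) : Pl N :=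
  Matrix.det (Matrix.of fun i k => pderiv (e k)
    ((Fin.snoc (wT d N ξ) (wH d j N ξ b) : Fin (c + 1) → Pl N) i))

/-- The minors of the base are not small at `σ`. -/
def TBig {c N : ℕ} (d : Fin c → ℕ) (ξ : Fin N → Fin c → Pl c) (κ : ℝ) (σ : Fin N → ℝ) : Prop :=
  ∃ e : Fin c → Fin N, κ ≤ |eval σ (minT d ξ e)|

/-- All minors (with the height) are small. -/
def Flat {c N : ℕ} (d : Fin c → ℕ) (j : ℕ) (ξ : Fin N → Fin c → Pl c) (b : Fin N → Pl c)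
    (r : ℝ) : Prop :=
  ∀ e : Fin (c + 1) → Fin N, CB (minA d j ξ b e) r

/-! ### The data -/

/-- The data of the weighted core. -/
structure WC {c : ℕ} {Ω G B 𝔅 𝒱 : Type} [Fintype Ω] (d : Fin c → ℕ) (j U m : ℕ)
    (C₀ θ η : ℝ) (p : Ω → ℝ) (g : Ω → G) (bk : Ω → B) (β : Ω → 𝔅) (V : Ω → 𝒱) (tm : Ω → ℤ)
    (pT : Ω → Fin c → ℝ) (pN : Ω → ℝ) (ΘT : B → (Fin c → ℝ) → Fin c → ℝ)
    (FN : B → (Fin c → ℝ) → ℝ) (ξT : 𝒱 → 𝔅 → Fin c → Pl c) (ξN : 𝒱 → 𝔅 → Pl c) : Prop where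
  isLaw : IsLaw p
  d_pos : ∀ i, 1 ≤ d i
  j_pos : 1 ≤ j
  m_ge : 2 * U ≤ m
  bk_β : Det p bk β
  g_β : Det p g β
  bk_tm : Det p bk tm
  tm_g : ∀ ω ω', g ω = g ω' → |tm ω' - tm ω| ≤ 2 ^ m
  pT_le : ∀ ω, 0 < p ω → ∀ i, |pT ω i| ≤ C₀
  ξT_vf : ∀ v x, VF d (ξT v x)
  ξT_le : ∀ v x i, CB (ξT v x i) (Real.exp θ)
  ξN_hom : ∀ v x, (ξN v x).IsWeightedHomogeneous d (j - 1)
  ξN_le : ∀ v x, CB (ξN v x) (Real.exp θ)
  ΘT_le : ∀ x z, (∀ i, |z i| ≤ C₀) → ∀ i, |ΘT x z i| ≤ Real.exp θ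
  ΘT_lip : ∀ x z z', (∀ i, |z i| ≤ C₀) → (∀ i, |z' i| ≤ C₀) → ∀ δ : ℝ,
    (∀ i, |z i - z' i| ≤ δ) → ∀ i, |ΘT x z i - ΘT x z' i| ≤ Real.exp θ * δ
  ΘT_inv : ∀ x z z', (∀ i, |z i| ≤ C₀) → (∀ i, |z' i| ≤ C₀) → ∀ δ : ℝ,
    (∀ i, |ΘT x z i - ΘT x z' i| ≤ δ) → ∀ i, |z i - z' i| ≤ Real.exp θ * δ
  FN_lip : ∀ x z z', (∀ i, |z i| ≤ C₀) → (∀ i, |z' i| ≤ C₀) → ∀ δ : ℝ,
    (∀ i, |z i - z' i| ≤ δ) → |FN x z - FN x z'| ≤ Real.exp θ * δ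
  own : Pb p (fun ω => ¬ ((∀ i, |ΘT (bk ω) (pT ω) i| ≤ Real.exp θ / 2 ^ U) ∧
    |pN ω - FN (bk ω) (pT ω)| ≤ Real.exp θ / 2 ^ U)) ≤ η
  transport : P2 p g (fun ω ω' => ¬ ∀ z : Fin c → ℝ, (∀ i, |z i| ≤ C₀) →
    (∀ i, |ΘT (bk ω') z i - eval (ΘT (bk ω) z)
      (flow d (ξT (V ω) (β ω)) (-(((tm ω' - tm ω : ℤ) : ℝ) / 2 ^ m)) i)| ≤
      Real.exp θ / 2 ^ U) ∧
    |FN (bk ω') z - FN (bk ω) z + eval (ΘT (bk ω) z)
      (hfl j (ξT (V ω) (β ω)) (ξN (V ω) (β ω)) (-(((tm ω' - tm ω : ℤ) : ℝ) / 2 ^ m)))| ≤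
      Real.exp θ / 2 ^ U) ≤ η
  timeFull : m * Real.log 2 - θ ≤ CH p tm g
  indep : CH p V β - CH p V bk ≤ θ

/-- The vector fields of the legs of a chain. -/
def lgT {c : ℕ} {Ω 𝔅 𝒱 W : Type} (β : Ω → 𝔅) (V : Ω → 𝒱) (ξT : 𝒱 → 𝔅 → Fin c → Pl c) (N : ℕ)
    (z : ℕ → W → Ω) (w : W) (a : Fin N) : Fin c → Pl c :=
  ξT (V (z (2 * a) w)) (β (z (2 * a) w))

/-- The velocities of the height on the legs of a chain. -/
def lgN {c : ℕ} {Ω 𝔅 𝒱 W : Type} (β : Ω → 𝔅) (V : Ω → 𝒱) (ξN : 𝒱 → 𝔅 → Pl c) (N : ℕ)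
    (z : ℕ → W → Ω) (w : W) (a : Fin N) : Pl c :=
  ξN (V (z (2 * a) w)) (β (z (2 * a) w))

/-- The lengths of the legs of a chain. -/
noncomputable def len {Ω W : Type} (tm : Ω → ℤ) (m N : ℕ) (z : ℕ → W → Ω) (w : W)
    (a : Fin N) : ℝ :=
  ((tm (z (2 * a + 1) w) - tm (z (2 * a) w) : ℤ) : ℝ) / 2 ^ m

/-- The walks of `N` legs are submersions onto the base, outside probability `η`. -/
def Sbm {c : ℕ} {Ω G B 𝔅 𝒱 : Type} [Fintype Ω] (d : Fin c → ℕ) (m : ℕ) (p : Ω → ℝ)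
    (g : Ω → G) (bk : Ω → B) (β : Ω → 𝔅) (V : Ω → 𝒱) (tm : Ω → ℤ)
    (ξT : 𝒱 → 𝔅 → Fin c → Pl c) (N : ℕ) (κ η : ℝ) : Prop :=
  ∀ (W : Type) [Fintype W] (q : W → ℝ) (z : ℕ → W → Ω), MC p (alt g bk) (2 * N - 1) q z →
    Pb q (fun w => ¬ TBig d (lgT β V ξT N z w) κ (len tm m N z w)) ≤ η

/-- The walks of `N` legs are flat with probability at least `η`. -/
def Flt {c : ℕ} {Ω G B 𝔅 𝒱 : Type} [Fintype Ω] (d : Fin c → ℕ) (j : ℕ) (p : Ω → ℝ)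
    (g : Ω → G) (bk : Ω → B) (β : Ω → 𝔅) (V : Ω → 𝒱)
    (ξT : 𝒱 → 𝔅 → Fin c → Pl c) (ξN : 𝒱 → 𝔅 → Pl c) (N : ℕ) (r η : ℝ) : Prop :=
  ∃ (W : Type) (_ : Fintype W) (q : W → ℝ) (z : ℕ → W → Ω), MC p (alt g bk) (2 * N - 1) q z ∧
    η ≤ Pb q (fun w => Flat d j (lgT β V ξT N z w) (lgN β V ξN N z w) r)

/-! ### The theorems -/

/-- **(A) COUNT.** If the rows `P ≤ ρ U` of the height are not full given the base (to `U` digits)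
then the walks are flat with probability at least `1 - η`. -/
def CntStmt : Prop :=
  ∀ (c j N : ℕ) (d : Fin c → ℕ) (C₀ a ρ : ℝ), 1 ≤ N → 1 ≤ C₀ → 0 < a → 0 < ρ → ρ ≤ 1 →
    ∃ κ : ℝ, 0 < κ ∧
    ∀ η : ℝ, 0 < η → ∃ τ : ℝ, 0 < τ ∧ ∃ U₀ : ℕ, ∀ U m : ℕ, U₀ ≤ U → (m : ℝ) ≤ C₀ * U →
    ∀ (Ω G B 𝔅 𝒱 : Type) [Fintype Ω] (p : Ω → ℝ) (g : Ω → G) (bk : Ω → B) (β : Ω → 𝔅)
      (V : Ω → 𝒱) (tm : Ω → ℤ) (pT : Ω → Fin c → ℝ) (pN : Ω → ℝ)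
      (ΘT : B → (Fin c → ℝ) → Fin c → ℝ) (FN : B → (Fin c → ℝ) → ℝ)
      (ξT : 𝒱 → 𝔅 → Fin c → Pl c) (ξN : 𝒱 → 𝔅 → Pl c) (yc : Ω → Fin c → ℤ),
      WC d j U m C₀ (τ * U) τ p g bk β V tm pT pN ΘT FN ξT ξN →
      (∀ ω i, |(yc ω i : ℝ) - 2 ^ U * pT ω i| ≤ C₀) →
      (∀ P : ℕ, (P : ℝ) ≤ ρ * U → ∀ ω, 0 < p ω →
        (Set.ncard {k : ℤ | ∃ ω', 0 < p ω' ∧ β ω' = β ω ∧ yc ω' = yc ω ∧
          ⌊pN ω'⌋ = ⌊pN ω⌋ ∧ k = ⌊(2 : ℝ) ^ P * pN ω'⌋} : ℝ) ≤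
          Real.exp ((1 - a) * P * Real.log 2 + τ * U)) →
      Flt d j p g bk β V ξT ξN N (Real.exp (-(κ * U))) (1 - η)

/-- **(B) LABEL.** If the walks are submersions onto the base, and flat with probability `η`, then
there is a visible polynomial of weight `j`; the corrected sheets are conserved with positive
probability. (`κ ≤ 1`: the sheets are known up to `2 ^ (-U)` only.) -/
def LabStmt : Prop :=
  ∀ (c j L : ℕ) (d : Fin c → ℕ) (C₀ η κ : ℝ), 1 ≤ L → 1 ≤ C₀ → 0 < η → 0 < κ → κ ≤ 1 →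
    ∃ (τ η' : ℝ), 0 < τ ∧ 0 < η' ∧ ∃ U₀ : ℕ, ∀ U m : ℕ, U₀ ≤ U → (m : ℝ) ≤ C₀ * U →
    ∀ (Ω G B 𝔅 𝒱 : Type) [Fintype Ω] (p : Ω → ℝ) (g : Ω → G) (bk : Ω → B) (β : Ω → 𝔅)
      (V : Ω → 𝒱) (tm : Ω → ℤ) (pT : Ω → Fin c → ℝ) (pN : Ω → ℝ)
      (ΘT : B → (Fin c → ℝ) → Fin c → ℝ) (FN : B → (Fin c → ℝ) → ℝ)
      (ξT : 𝒱 → 𝔅 → Fin c → Pl c) (ξN : 𝒱 → 𝔅 → Pl c),
      WC d j U m C₀ (τ * U) τ p g bk β V tm pT pN ΘT FN ξT ξN →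
      Sbm d m p g bk β V tm ξT L (Real.exp (-(τ * U))) τ →
      Flt d j p g bk β V ξT ξN (2 * L + 1) (Real.exp (-(κ * U))) η →
      ∃ Hf : B → Pl c, (∀ x, (Hf x).IsWeightedHomogeneous d j) ∧
        (∀ x, CB (Hf x) (Real.exp (κ * U / 4))) ∧
        η' ≤ P2 p g (fun ω ω' => ∀ z : Fin c → ℝ, (∀ i, |z i| ≤ C₀) →
          |FN (bk ω') z + eval (ΘT (bk ω') z) (Hf (bk ω')) -
            (FN (bk ω) z + eval (ΘT (bk ω) z) (Hf (bk ω)))| ≤ Real.exp (-(κ * U / 2)))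

/-- **(C) SUBMERSION.** If the walks of `N` legs are not flat with probability almost `1` then they
are submersions onto the base and the height (as a base with one more coordinate). -/
def BigStmt : Prop :=
  ∀ (c j N : ℕ) (d : Fin c → ℕ) (C₀ τ' η : ℝ), 1 ≤ N → 1 ≤ C₀ → 0 < τ' → 0 < η →
    ∃ (κ τ : ℝ), 0 < κ ∧ 0 < τ ∧ ∃ U₀ : ℕ, ∀ U m : ℕ, U₀ ≤ U → (m : ℝ) ≤ C₀ * U →
    ∀ (Ω G B 𝔅 𝒱 : Type) [Fintype Ω] (p : Ω → ℝ) (g : Ω → G) (bk : Ω → B) (β : Ω → 𝔅)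
      (V : Ω → 𝒱) (tm : Ω → ℤ) (pT : Ω → Fin c → ℝ) (pN : Ω → ℝ)
      (ΘT : B → (Fin c → ℝ) → Fin c → ℝ) (FN : B → (Fin c → ℝ) → ℝ)
      (ξT : 𝒱 → 𝔅 → Fin c → Pl c) (ξN : 𝒱 → 𝔅 → Pl c),
      WC d j U m C₀ (τ * U) τ p g bk β V tm pT pN ΘT FN ξT ξN →
      ¬ Flt d j p g bk β V ξT ξN N (Real.exp (-(κ * U))) (η / 2) →
      ∀ (W : Type) [Fintype W] (q : W → ℝ) (z : ℕ → W → Ω), MC p (alt g bk) (2 * N - 1) q z →
        Pb q (fun w => ¬ ∃ e : Fin (c + 1) → Fin N, Real.exp (-(τ' * U)) ≤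
          |eval (len tm m N z w) (minA d j (lgT β V ξT N z w) (lgN β V ξN N z w) e)|) ≤ η

end Pool.STAT
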